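import Pool.Agent.Lib.TFS49.Defs

/-! The variational principle for a symmetric operator given by its graph. -/

open scoped InnerProductSpace

namespace TFS49

variable {H : Type} [NormedAddCommGroup H] [InnerProductSpace ℂ H]

/-- symmetric graph -/
def Sym (G : Set (H × H)) : Prop := ∀ p ∈ G, ∀ q ∈ G, ⟪p.2, q.1⟫_ℂ = ⟪p.1, q.2⟫_ℂ

theorem Sym.closure {G : Set (H × H)} (h : Sym G) : Sym (closure G) := by
  intro p hp q hq
  have hc : IsClosed {w : (H × H) × H × H | ⟪w.1.2, w.2.1⟫_ℂ = ⟪w.1.1, w.2.2⟫_ℂ} :=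
    isClosed_eq (by fun_prop) (by fun_prop)
  have h1 : (p, q) ∈ _root_.closure (G ×ˢ G) := by
    rw [closure_prod_eq]; exact ⟨hp, hq⟩
  exact closure_minimal (fun w hw => h _ hw.1 _ hw.2) hc h1

theorem form_ge [CompleteSpace H] {G : Set (H × H)} (h : Sym G) (l : ℝ)
    (hl : ∀ m : ℝ, m ≤ l → (m : ℂ) ∉ spec G) (p : H × H) (hp : p ∈ G) :
    l * ‖p.1‖ ^ 2 ≤ (⟪p.1, p.2⟫_ℂ).re := by
  obtain ⟨S, hS1, hS2⟩ := not_not.1 (hl l le_rfl)
  have hsym : (S : H →ₗ[ℂ] H).IsSymmetric := by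
    intro f g
    have h1 := h _ (hS1 f) _ (hS1 g)
    simp only [inner_add_left, inner_add_right, inner_smul_left, inner_smul_right,
      Complex.conj_ofReal, add_left_inj] at h1
    exact h1.symm
  have hsa : IsSelfAdjoint S := ContinuousLinearMap.isSelfAdjoint_iff_isSymmetric.2 hsym
  have hpos : 0 ≤ S := by
    rw [StarOrderedRing.nonneg_iff_spectrum_nonneg (R := ℝ) S hsa]
    intro t ht
    by_contra hneg
    have ht0 : t < 0 := not_le.1 hneg
    have ht1 : (t : ℂ) ≠ 0 := by exact_mod_cast ht0.ne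
    obtain ⟨T, hT1, hT2⟩ := not_not.1 (hl (l + t⁻¹) (by
      have := inv_lt_zero.2 ht0
      linarith))
    have e1 : ∀ f, T (f - (t : ℂ)⁻¹ • S f) = S f := by
      intro f
      have := hT2 _ (hS1 f)
      simp only [Complex.ofReal_add, Complex.ofReal_inv, add_smul] at this
      rw [← this]
      congr 1
      rw [this]
      abel
    have e2 : ∀ g, S (g + (t : ℂ)⁻¹ • T g) = T g := by
      intro g
      have := hS2 _ (hT1 g)
      simp only [Complex.ofReal_add, Complex.ofReal_inv, add_smul] at this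
      rw [← this]
      congr 1
      rw [this]
      abel
    apply ht
    have ea : ∀ f, (algebraMap ℝ (H →L[ℂ] H) t - S) f = (t : ℂ) • (f - (t : ℂ)⁻¹ • S f) := by
      intro f
      rw [smul_sub, smul_smul, mul_inv_cancel₀ ht1, one_smul, Algebra.algebraMap_eq_smul_one]
      simp
    refine ⟨⟨algebraMap ℝ (H →L[ℂ] H) t - S, (t : ℂ)⁻¹ • (1 + (t : ℂ)⁻¹ • T), ?_, ?_⟩, rfl⟩
    · ext g
      rw [mul_apply_eq_comp, ea]
      simp only [smul_apply, add_apply,
        one_apply_eq_self, map_smul, e2]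
      rw [← smul_sub, smul_smul, mul_inv_cancel₀ ht1, one_smul, add_sub_cancel_right]
    · ext f
      rw [mul_apply_eq_comp, ea]
      simp only [smul_apply, add_apply,
        one_apply_eq_self, map_smul, e1]
      rw [smul_smul, mul_inv_cancel₀ ht1, one_smul, sub_add_cancel]
  have h2 := ((ContinuousLinearMap.nonneg_iff_isPositive S).1 hpos).re_inner_nonneg_left
    (p.2 - (l : ℂ) • p.1)
  rw [hS2 p hp, inner_sub_right, inner_smul_right, inner_self_eq_norm_sq_to_K] at h2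
  have h3 : (⟪p.1, p.2⟫_ℂ - (l : ℂ) * (‖p.1‖ : ℂ) ^ 2).re = (⟪p.1, p.2⟫_ℂ).re - l * ‖p.1‖ ^ 2 := by
    rw [Complex.sub_re, ← Complex.ofReal_pow, ← Complex.ofReal_mul, Complex.ofReal_re]
  have h4 : 0 ≤ (⟪p.1, p.2⟫_ℂ - (l : ℂ) * (‖p.1‖ : ℂ) ^ 2).re := h2
  linarith

theorem infSpec_le [CompleteSpace H] {G : Set (H × H)} (h : Sym G) (p : H × H) (hp : p ∈ G)
    (hn : ‖p.1‖ = 1) : infSpec G ≤ ((⟪p.1, p.2⟫_ℂ).re : ℝ) := by
  by_contra hlt
  obtain ⟨l, h1, h2⟩ := EReal.lt_iff_exists_real_btwn.1 (not_le.1 hlt)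
  have h3 := form_ge h l (fun m hm hs => by
    have h4 : infSpec G ≤ (m : EReal) := iInf_le_of_le ⟨m, hs⟩ le_rfl
    exact absurd (h2.trans_le h4) (not_lt.2 (EReal.coe_le_coe_iff.2 hm))) p hp
  rw [hn, one_pow, mul_one] at h3
  exact absurd (EReal.coe_lt_coe_iff.1 h1) (not_lt.2 h3)

end TFS49
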