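import Pool.Agent.Lib.TFS49.Defs

/-! The antisymmetric subspace and the graph on the core. -/

open MeasureTheory

namespace TFS49

open Pool.Agent.Lib.MP_f7be6d_mp

theorem perm_mp {N : ℕ} (π : Equiv.Perm (Fin N)) :
    MeasurePreserving (fun y : Cfg N => y ∘ π) (mu N) (mu N) :=
  measurePreserving_arrowCongr' (fun _ => (volume : Measure E3).prod Measure.count)
    (fun _ => (volume : Measure E3).prod Measure.count) π.symm (MeasurableEquiv.refl _)
    fun _ => MeasurePreserving.id _

/-- the antisymmetric subspace of L^2((R^3 x {1,2})^N) -/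
def anti (N : ℕ) : Submodule ℂ (Lp ℂ 2 (mu N)) where
  carrier := {f | ∀ π : Equiv.Perm (Fin N), ∀ᵐ y ∂mu N,
    f (y ∘ π) = ((Equiv.Perm.sign π : ℤ) : ℂ) * f y}
  add_mem' := by
    intro f g hf hg π
    have h := Lp.coeFn_add f g
    have hq := (perm_mp π).quasiMeasurePreserving
    filter_upwards [hf π, hg π, h, hq.ae h] with y h1 h2 h3 h4
    rw [h4, h3, Pi.add_apply, Pi.add_apply, h1, h2, mul_add]
  zero_mem' := by
    intro π
    have h := Lp.coeFn_zero ℂ 2 (mu N)
    have hq := (perm_mp π).quasiMeasurePreserving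
    filter_upwards [h, hq.ae h] with y h3 h4
    rw [h4, h3, Pi.zero_apply, Pi.zero_apply, mul_zero]
  smul_mem' := by
    intro c f hf π
    have h := Lp.coeFn_smul c f
    have hq := (perm_mp π).quasiMeasurePreserving
    filter_upwards [hf π, h, hq.ae h] with y h1 h3 h4
    rw [h4, h3, Pi.smul_apply, Pi.smul_apply, h1, smul_eq_mul, smul_eq_mul, mul_left_comm]

/-- the graph of H_N on the smooth compactly supported antisymmetric functions -/
def graph0 (N : ℕ) {k : ℕ} (z : Fin k → ℝ) (R : Fin k → E3) : Set (anti N × anti N) :=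
  {p | ∃ ψ, IsCore ψ ∧ (p.1.1 : Cfg N → ℂ) =ᵐ[mu N] ψ ∧ (p.2.1 : Cfg N → ℂ) =ᵐ[mu N] ham z R ψ}

end TFS49
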