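import Pool.Agent.Lib.MP_f7be6d_mp.Defs

/-! The Hamiltonian as an operator on the antisymmetric subspace, and its spectrum. -/

open MeasureTheory
open scoped ContDiff

namespace TFS49

open Pool.Agent.Lib.MP_f7be6d_mp

/-- (R^3 x {1,2})^N -/
abbrev Cfg (N : ℕ) : Type := Fin N → E3 × Fin 2

/-- Lebesgue measure in the positions, counting measure in the spins -/
noncomputable def mu (N : ℕ) : Measure (Cfg N) :=
  Measure.pi fun _ => (volume : Measure E3).prod Measure.count

/-- antisymmetry almost everywhere -/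
def AntiAE {N : ℕ} (f : Cfg N → ℂ) : Prop := ∀ π : Equiv.Perm (Fin N), ∀ᵐ y ∂mu N,
  f (y ∘ π) = ((Equiv.Perm.sign π : ℤ) : ℂ) * f y

/-- antisymmetric functions, smooth and compactly supported in the positions -/
structure IsCore {N : ℕ} (ψ : Cfg N → ℂ) : Prop where
  smooth : ∀ s : Fin N → Fin 2, ContDiff ℝ ∞ fun x : Fin N → E3 => ψ fun i => (x i, s i)
  compact : ∀ s : Fin N → Fin 2, HasCompactSupport fun x : Fin N → E3 => ψ fun i => (x i, s i)
  antisymm : ∀ (π : Equiv.Perm (Fin N)) (y : Cfg N),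
    ψ (y ∘ π) = ((Equiv.Perm.sign π : ℤ) : ℂ) * ψ y

/-- H_N psi = sum_i (-Laplace_i - V(x_i)) psi + (sum_{i<j} 1/|x_i - x_j| + U) psi -/
noncomputable def ham {N k : ℕ} (z : Fin k → ℝ) (R : Fin k → E3) (ψ : Cfg N → ℂ) (y : Cfg N) : ℂ :=
  ∑ i, (-Laplacian.laplacian (fun t : E3 => ψ (Function.update y i (t, (y i).2))) (y i).1
      - nucV z R (y i).1 * ψ y)
    + ((∑ i, ∑ j with i < j, 1 / ‖(y i).1 - (y j).1‖) + nucU z R : ℝ) * ψ y

/-- spectrum of the operator A with graph G: the l for which A - l has no bounded inverse -/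
def spec {H : Type} [NormedAddCommGroup H] [NormedSpace ℂ H] (G : Set (H × H)) : Set ℂ :=
  {l | ¬ ∃ S : H →L[ℂ] H, (∀ g, (S g, g + l • S g) ∈ G) ∧ ∀ p ∈ G, S (p.2 - l • p.1) = p.1}

/-- the bottom of the real spectrum -/
noncomputable def infSpec {H : Type} [NormedAddCommGroup H] [NormedSpace ℂ H]
    (G : Set (H × H)) : EReal := ⨅ l : {l : ℝ // (l : ℂ) ∈ spec G}, ((l.1 : ℝ) : EReal)

/-- the closure of G is the graph of a self-adjoint operator whose spectrum has infimum E -/
def SAClosure {H : Type} [NormedAddCommGroup H] [InnerProductSpace ℂ H] [CompleteSpace H]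
    (G : Set (H × H)) (E : EReal) : Prop :=
  ∃ A : H →ₗ.[ℂ] H, IsSelfAdjoint A ∧ (A.graph : Set (H × H)) = closure G ∧
    infSpec (A.graph : Set (H × H)) = E

/-- the same in the complete subspace of the vectors with property P, for the relation C -/
def SubGround {L : Type} [NormedAddCommGroup L] [InnerProductSpace ℂ L] (P : L → Prop)
    (C : L → L → Prop) (E : EReal) : Prop :=
  ∃ (K : Submodule ℂ L) (_ : CompleteSpace K), (∀ f, f ∈ K ↔ P f) ∧
    SAClosure {p : K × K | C p.1 p.2} E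

/-- the same in L^2, for the operator T on the functions with property D -/
def L2Ground {Y : Type} [MeasurableSpace Y] (μ : Measure Y) (P D : (Y → ℂ) → Prop)
    (T : (Y → ℂ) → Y → ℂ) (E : EReal) : Prop :=
  SubGround (L := Lp ℂ 2 μ) (fun f => P f) (fun f g => ∃ ψ, D ψ ∧ f =ᵐ[μ] ψ ∧ g =ᵐ[μ] T ψ) E

/-- E = inf spec H_N, H_N the self-adjoint closure in the antisymmetric subspace of L^2 -/
def IsEQ (N : ℕ) {k : ℕ} (z : Fin k → ℝ) (R : Fin k → E3) (E : EReal) : Prop :=
  L2Ground (mu N) AntiAE IsCore (ham z R) E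

end TFS49
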