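import Pool.Agent.Lib.TFS49.Main

/-! Square integrable weak solutions of `-Laplace u + a u = 0` vanish. -/

open MeasureTheory Filter Topology
open scoped ContDiff ComplexConjugate Convolution

namespace TFS49

open Pool.Agent.Lib.MP_f7be6d_mp

variable {N : ℕ}

/-- minus the Laplacian in all the coordinates -/
noncomputable def nl (f : (Fin N → E3) → ℂ) (x : Fin N → E3) : ℂ :=
  -(∑ i, ∑ a, dd i a (dd i a f) x)

theorem parts2 (i : Fin N) (a : Fin 3) {f g : (Fin N → E3) → ℂ} (hf : ContDiff ℝ ∞ f)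
    (hg : ContDiff ℝ ∞ g) (m1 : MemLp f 2 volume) (m2 : MemLp (dd i a f) 2 volume)
    (m3 : MemLp g 2 volume) (m4 : MemLp (dd i a g) 2 volume) :
    ∫ x, conj (f x) * dd i a g x = -∫ x, conj (dd i a f x) * g x := by
  have hc : ContDiff ℝ ∞ fun x => conj (f x) := Complex.conjCLE.contDiff.comp hf
  have e : ∀ x, conj (dd i a f x) = dd i a (fun x => conj (f x)) x := by
    intro x
    have := (Complex.conjCLE.hasFDerivAt.comp x
      ((hf.differentiable (by simp)) x).hasFDerivAt).fderiv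
    unfold dd
    rw [show (fun x => conj (f x)) = Complex.conjCLE ∘ f from rfl, this]
    rfl
  have i1 := int_conj_mul m2 m3
  simp only [e] at i1 ⊢
  exact integral_mul_fderiv_eq_neg_fderiv_mul_of_integrable i1 (int_conj_mul m1 m4)
    (int_conj_mul m1 m3) (fun x _ => hc.differentiable (by simp) x)
    fun x _ => hg.differentiable (by simp) x

theorem int_conj_self (f : (Fin N → E3) → ℂ) :
    ∫ x, conj (f x) * f x = ((∫ x, ‖f x‖ ^ 2 : ℝ) : ℂ) := by
  rw [← integral_complex_ofReal]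
  congr 1
  funext x
  rw [Complex.conj_mul']; push_cast; rfl

theorem int_nl {f : (Fin N → E3) → ℂ} (hf : ContDiff ℝ ∞ f) (m1 : MemLp f 2 volume)
    (m2 : ∀ i a, MemLp (dd i a f) 2 volume) (m3 : ∀ i a, MemLp (dd i a (dd i a f)) 2 volume) :
    ∫ x, conj (f x) * nl f x = ((∑ i, ∑ a, ∫ x, ‖dd i a f x‖ ^ 2 : ℝ) : ℂ) := by
  have i2 := fun i a => int_conj_mul m1 (m3 i a)
  simp only [nl, mul_neg, Finset.mul_sum]
  rw [integral_neg, integral_finsetSum _ fun i _ => integrable_finsetSum _ fun a _ => i2 i a,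
    ← Finset.sum_neg_distrib]
  push_cast
  refine Finset.sum_congr rfl fun i _ => ?_
  rw [integral_finsetSum _ fun a _ => i2 i a, ← Finset.sum_neg_distrib]
  refine Finset.sum_congr rfl fun a _ => ?_
  rw [parts2 i a hf (dd_smooth i a hf) m1 (m2 i a) (m2 i a) (m3 i a), neg_neg, int_conj_self]

/-- convolution -/
noncomputable def cv (g φ : (Fin N → E3) → ℂ) : (Fin N → E3) → ℂ :=
  g ⋆[ContinuousLinearMap.mul ℝ ℂ, volume] φ

theorem cv_apply (g φ : (Fin N → E3) → ℂ) (x : Fin N → E3) :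
    cv g φ x = ∫ y, g y * φ (x - y) := rfl

theorem cv_smooth {g φ : (Fin N → E3) → ℂ} (hg : MemLp g 2 volume) (h1 : ContDiff ℝ ∞ φ)
    (h2 : HasCompactSupport φ) : ContDiff ℝ ∞ (cv g φ) :=
  h2.contDiff_convolution_right (n := ⊤) _ (hg.locallyIntegrable one_le_two) h1

theorem dd_cv {g φ : (Fin N → E3) → ℂ} (hg : MemLp g 2 volume) (h1 : ContDiff ℝ ∞ φ)
    (h2 : HasCompactSupport φ) (i : Fin N) (a : Fin 3) : dd i a (cv g φ) = cv g (dd i a φ) := by
  funext x
  have hl := hg.locallyIntegrable one_le_two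
  unfold dd cv
  rw [(h2.hasFDerivAt_convolution_right _ hl (h1.of_le (by simp)) x).fderiv,
    convolution_precompR_apply _ hl (h2.fderiv ℝ) (h1.continuous_fderiv (by simp))]

theorem cv_memLp {g φ : (Fin N → E3) → ℂ} (hg : MemLp g 2 volume) (h1 : ContDiff ℝ ∞ φ)
    (h2 : HasCompactSupport φ) : MemLp (cv g φ) 2 volume := by
  have hm := (cv_smooth hg h1 h2).continuous.aestronglyMeasurable (μ := volume)
  have : (volume : Measure E3).IsNegInvariant := inferInstance
  have : (volume : Measure (Fin N → E3)).IsNegInvariant := Measure.pi.isNegInvariant _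
  rw [memLp_two_iff_integrable_sq_norm hm]
  have i1 := (memLp_two_iff_integrable_sq_norm hg.1).1 hg
  have i2 : Integrable fun x => ‖φ x‖ := (h1.continuous.integrable_of_hasCompactSupport h2).norm
  have i3 := i1.integrable_convolution (ContinuousLinearMap.mul ℝ ℝ) i2
  set A := (∫ x, ‖φ x‖) + 1 with hA
  have hA0 : 0 < A := by positivity
  refine (i3.const_mul A).mono' (hm.norm.pow 2) (Eventually.of_forall fun x => ?_)
  have j1 : Integrable fun y => ‖φ (x - y)‖ := i2.comp_sub_left x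
  have j2 : Integrable fun y => ‖g y‖ ^ 2 * ‖φ (x - y)‖ :=
    h2.norm.convolutionExists_right (ContinuousLinearMap.mul ℝ ℝ) i1.locallyIntegrable
      h1.continuous.norm x
  have j3 : Integrable fun y => ‖g y‖ * ‖φ (x - y)‖ :=
    h2.norm.convolutionExists_right (ContinuousLinearMap.mul ℝ ℝ)
      (hg.norm.locallyIntegrable one_le_two) h1.continuous.norm x
  set I := ∫ y, ‖g y‖ * ‖φ (x - y)‖ with hI
  set J := ∫ y, ‖g y‖ ^ 2 * ‖φ (x - y)‖ with hJ
  have h3 : ‖cv g φ x‖ ≤ I := by
    rw [cv_apply]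
    refine (norm_integral_le_integral_norm _).trans_eq ?_
    simp only [norm_mul, hI]
  have h4 := integral_mono (j3.const_mul (2 * (I / A))) ((j1.const_mul ((I / A) ^ 2)).add j2)
    fun y => by
      simp only [Pi.add_apply]
      nlinarith [mul_nonneg (sq_nonneg (I / A - ‖g y‖)) (norm_nonneg (φ (x - y)))]
  simp only [Pi.add_apply] at h4
  rw [integral_add (j1.const_mul _) j2, integral_const_mul, integral_const_mul,
    integral_sub_left_eq_self (fun y => ‖φ y‖) volume x, ← hI, ← hJ] at h4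
  have h5 : I ^ 2 ≤ A * J := by
    have e1 : I = I / A * A := by field_simp
    have e2 : ∫ x, ‖φ x‖ = A - 1 := by rw [hA]; ring
    rw [e2] at h4
    set t := I / A
    have e3 : 2 * t * I = 2 * (t ^ 2 * A) := by rw [e1]; ring
    have h6 : t ^ 2 * A ≤ J := by nlinarith [sq_nonneg t]
    calc I ^ 2 = A * (t ^ 2 * A) := by rw [e1]; ring
      _ ≤ A * J := mul_le_mul_of_nonneg_left h6 hA0.le
  rw [Real.norm_of_nonneg (by positivity)]
  exact (pow_le_pow_left₀ (norm_nonneg _) h3 2).trans h5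

theorem dd_refl {φ : (Fin N → E3) → ℂ} (h1 : ContDiff ℝ ∞ φ) (x : Fin N → E3) (i : Fin N)
    (a : Fin 3) : dd i a (fun y => φ (x - y)) = fun y => -dd i a φ (x - y) := by
  funext y
  have h := ((h1.differentiable (by simp)) (x - y)).hasFDerivAt.comp y
    ((hasFDerivAt_id (𝕜 := ℝ) y).const_sub x)
  unfold dd
  rw [show (fun y => φ (x - y)) = φ ∘ HSub.hSub x from rfl, h.fderiv]
  simp

theorem dd_neg (f : (Fin N → E3) → ℂ) (i : Fin N) (a : Fin 3) :
    dd i a (fun y => -f y) = fun y => -dd i a f y := by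
  funext y
  unfold dd
  rw [fderiv_fun_neg]
  rfl

theorem ae_zero_of_test {g : (Fin N → E3) → ℂ} (hg : MemLp g 2 volume)
    (h : ∀ φ : (Fin N → E3) → ℂ, ContDiff ℝ ∞ φ → HasCompactSupport φ → ∫ x, g x * φ x = 0) :
    ∀ᵐ x, g x = 0 := by
  refine ae_eq_zero_of_integral_contDiff_smul_eq_zero (hg.locallyIntegrable one_le_two)
    fun φ h1 h2 => ?_
  rw [← h (fun x => (φ x : ℂ)) (Complex.ofRealCLM.contDiff.comp h1)
    (h2.comp_left (g := fun a : ℝ => (a : ℂ)) rfl)]
  congr 1
  funext x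
  rw [Complex.real_smul, mul_comm]

theorem elliptic {g : (Fin N → E3) → ℂ} (hg : MemLp g 2 volume) {c : ℝ} (hc : 0 < c)
    (h : ∀ φ : (Fin N → E3) → ℂ, ContDiff ℝ ∞ φ → HasCompactSupport φ →
      ∫ x, g x * (nl φ x + c * φ x) = 0) : ∀ᵐ x, g x = 0 := by
  have hrs : ∀ {φ : (Fin N → E3) → ℂ} (x : Fin N → E3), HasCompactSupport φ →
      HasCompactSupport fun y => φ (x - y) := fun x h2 => h2.comp_homeomorph (Homeomorph.subLeft x)
  have key : ∀ φ : (Fin N → E3) → ℂ, ContDiff ℝ ∞ φ → HasCompactSupport φ → cv g φ = 0 := by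
    intro φ h1 h2
    have ex : ∀ {χ : (Fin N → E3) → ℂ}, Continuous χ → HasCompactSupport χ → ∀ x,
        Integrable fun y => g y * χ (x - y) := fun c1 c2 x =>
      c2.convolutionExists_right (ContinuousLinearMap.mul ℝ ℂ) (hg.locallyIntegrable one_le_two)
        c1 x
    have s1 := fun i a => dd_smooth i a h1
    have s2 := fun i a => dd_smooth i a (s1 i a)
    have k1 := fun i a => dd_compact i a h2
    have k2 := fun i a => dd_compact i a (k1 i a)
    have e1 : ∀ x, nl (cv g φ) x + c * cv g φ x = 0 := by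
      intro x
      have h3 := h (fun y => φ (x - y)) (h1.comp (contDiff_const.sub contDiff_id)) (hrs x h2)
      have e2 : ∀ i a, dd i a (dd i a fun y => φ (x - y)) = fun y => dd i a (dd i a φ) (x - y) := by
        intro i a
        rw [dd_refl h1, dd_neg, dd_refl (s1 i a)]
        simp
      have i2 := fun i a => ex (s2 i a).continuous (k2 i a) x
      simp only [nl, e2, mul_add, mul_neg, Finset.mul_sum, mul_left_comm _ (c : ℂ)] at h3
      rw [integral_add (integrable_finsetSum _ fun i _ => integrable_finsetSum _ fun a _ =>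
          i2 i a).fun_neg ((ex h1.continuous h2 x).const_mul _), integral_neg, integral_const_mul,
        integral_finsetSum _ fun i _ => integrable_finsetSum _ fun a _ => i2 i a] at h3
      simp only [integral_finsetSum _ fun a _ => i2 _ a] at h3
      simp only [nl, dd_cv hg h1 h2, dd_cv hg (s1 _ _) (k1 _ _), cv_apply]
      exact h3
    have m1 := cv_memLp hg h1 h2
    have m2 : ∀ i a, MemLp (dd i a (cv g φ)) 2 volume := fun i a => by
      rw [dd_cv hg h1 h2]; exact cv_memLp hg (s1 i a) (k1 i a)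
    have m3 : ∀ i a, MemLp (dd i a (dd i a (cv g φ))) 2 volume := fun i a => by
      rw [dd_cv hg h1 h2, dd_cv hg (s1 i a) (k1 i a)]; exact cv_memLp hg (s2 i a) (k2 i a)
    have h4 := int_nl (cv_smooth hg h1 h2) m1 m2 m3
    have e3 : ∀ x, conj (cv g φ x) * nl (cv g φ) x = -c * (conj (cv g φ x) * cv g φ x) := by
      intro x
      linear_combination conj (cv g φ x) * e1 x
    simp only [e3] at h4
    rw [integral_const_mul, int_conj_self] at h4
    have h5 : -c * ∫ x, ‖cv g φ x‖ ^ 2 = ∑ i, ∑ a, ∫ x, ‖dd i a (cv g φ) x‖ ^ 2 := by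
      exact_mod_cast h4
    have h6 : 0 ≤ ∑ i, ∑ a, ∫ x, ‖dd i a (cv g φ) x‖ ^ 2 := by positivity
    have h7 : 0 ≤ ∫ x, ‖cv g φ x‖ ^ 2 := by positivity
    have h8 : ∫ x, ‖cv g φ x‖ ^ 2 = 0 := by nlinarith
    have cc := (cv_smooth hg h1 h2).continuous
    have h9 := (integral_eq_zero_iff_of_nonneg (fun x => by positivity)
      ((memLp_two_iff_integrable_sq_norm m1.1).1 m1)).1 h8
    have h10 := (Continuous.ae_eq_iff_eq volume (by fun_prop) continuous_zero).1 h9
    funext x
    simpa using congrFun h10 x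
  refine ae_zero_of_test hg fun φ h1 h2 => ?_
  have := congrFun (key (fun y => φ (0 - y)) (h1.comp (contDiff_const.sub contDiff_id)) (hrs 0 h2)) 0
  simpa [cv_apply] using this

end TFS49
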