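import Pool.Agent.Lib.TFS49.Main

/-! Hardy inequality and the relative bound for the Coulomb potential. -/

open MeasureTheory Filter Topology
open scoped ContDiff ComplexConjugate

namespace TFS49

open Pool.Agent.Lib.MP_f7be6d_mp

variable {N k : ℕ}

theorem int_sq {f : (Fin N → E3) → ℂ} (hf : Continuous f) (hs : HasCompactSupport f) :
    Integrable fun x => ‖f x‖ ^ 2 :=
  (memLp_two_iff_integrable_sq_norm hf.aestronglyMeasurable).1 (hf.memLp_of_hasCompactSupport hs)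

theorem norm_sq_line (w : E3) (a : Fin 3) (t : ℝ) :
    ‖w + t • EuclideanSpace.single a (1 : ℝ)‖ ^ 2 = ‖w‖ ^ 2 + 2 * w a * t + t ^ 2 := by
  rw [norm_add_sq_real, norm_smul, inner_smul_right, EuclideanSpace.inner_single_right]
  simp
  ring

theorem hardy_eps {f : (Fin N → E3) → ℂ} (hf : ContDiff ℝ ∞ f) (hs : HasCompactSupport f)
    (i : Fin N) (w : (Fin N → E3) → E3) (hw : Continuous w)
    (hl : ∀ x (v : E3) (t : ℝ), w (x + t • (Pi.single i v : Fin N → E3)) = w x + t • v) {ε : ℝ} (hε : 0 < ε) :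
    ∫ x, ‖f x‖ ^ 2 * (‖w x‖ ^ 2 + ε)⁻¹ ≤ 4 * ∑ a, ∫ x, ‖dd i a f x‖ ^ 2 := by
  have hρ : ∀ x, 0 < ‖w x‖ ^ 2 + ε := fun x => by positivity
  have cρ : Continuous fun x => (‖w x‖ ^ 2 + ε)⁻¹ :=
    Continuous.inv₀ (by fun_prop) fun x => (hρ x).ne'
  have cf := hf.continuous
  have sF : HasCompactSupport fun x => ‖f x‖ ^ 2 :=
    hs.comp_left (g := fun a : ℂ => ‖a‖ ^ 2) (by simp)
  have iF : ∀ {g : (Fin N → E3) → ℝ}, Continuous g → Integrable fun x => ‖f x‖ ^ 2 * g x :=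
    fun hg => ((cf.norm.pow 2).mul hg).integrable_of_hasCompactSupport sF.mul_right
  have key : ∀ a : Fin 3, ∫ x, ‖f x‖ ^ 2 * ((‖w x‖ ^ 2 + ε)⁻¹ -
      2 * (w x a) ^ 2 * ((‖w x‖ ^ 2 + ε)⁻¹) ^ 2) ≤
      ∫ x, (‖f x‖ ^ 2 * ((w x a) ^ 2 * ((‖w x‖ ^ 2 + ε)⁻¹) ^ 2 / 2) + 2 * ‖dd i a f x‖ ^ 2) := by
    intro a
    have cd := (dd_smooth i a hf).continuous
    have sd := dd_compact i a hs
    have i1 : Integrable fun x => 2 * inner ℝ (f x) (dd i a f x) * (w x a * (‖w x‖ ^ 2 + ε)⁻¹) := by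
      refine Continuous.integrable_of_hasCompactSupport (by fun_prop) ?_
      refine hs.mono fun x hx h0 => hx ?_
      simp [h0]
    have h := integral_bilinear_hasLineDerivAt_right_eq_neg_left_of_integrable
      (μ := (volume : Measure (Fin N → E3))) (B := ContinuousLinearMap.mul ℝ ℝ)
      (f := fun x => ‖f x‖ ^ 2) (f' := fun x => 2 * inner ℝ (f x) (dd i a f x))
      (g := fun x => w x a * (‖w x‖ ^ 2 + ε)⁻¹)
      (g' := fun x => (‖w x‖ ^ 2 + ε)⁻¹ - 2 * (w x a) ^ 2 * ((‖w x‖ ^ 2 + ε)⁻¹) ^ 2)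
      (v := Pi.single i (EuclideanSpace.single a (1 : ℝ))) i1 (iF (by fun_prop)) (iF (by fun_prop))
      (fun x _ => by
        have := ((hf.differentiable (by simp)) x).hasFDerivAt.norm_sq.hasLineDerivAt
          (Pi.single i (EuclideanSpace.single a (1 : ℝ)))
        simpa [dd, mul_add] using this)
      (fun x _ => by
        unfold HasLineDerivAt
        have e0 : ∀ t : ℝ, (w x + t • EuclideanSpace.single a (1 : ℝ)) a = w x a + t := by
          intro t; simp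
        simp only [hl, norm_sq_line, e0]
        have h1 : HasDerivAt (fun t : ℝ => ‖w x‖ ^ 2 + 2 * w x a * t + t ^ 2 + ε)
            (2 * w x a) 0 := by
          simpa using ((((hasDerivAt_id (0 : ℝ)).const_mul (2 * w x a)).const_add
            (‖w x‖ ^ 2)).fun_add (hasDerivAt_pow 2 (0 : ℝ))).add_const ε
        have h2 : HasDerivAt (fun t : ℝ => w x a + t) 1 0 := (hasDerivAt_id (0 : ℝ)).const_add _
        have h3 := h2.fun_mul (h1.fun_inv (by simpa using (hρ x).ne'))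
        refine h3.congr_deriv ?_
        have := (hρ x).ne'
        simp only [mul_zero, add_zero, ne_eq, OfNat.ofNat_ne_zero, not_false_eq_true, zero_pow]
        field_simp
        ring)
    simp only [ContinuousLinearMap.mul_apply'] at h
    rw [h, ← integral_neg]
    refine integral_mono i1.neg ((iF (by fun_prop)).add ((int_sq cd sd).const_mul 2)) fun x => ?_
    have h1 := abs_real_inner_le_norm (f x) (dd i a f x)
    set r := w x a * (‖w x‖ ^ 2 + ε)⁻¹ with hr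
    have e : (w x a) ^ 2 * ((‖w x‖ ^ 2 + ε)⁻¹) ^ 2 = |r| ^ 2 := by rw [sq_abs, hr]; ring
    have h2 : -(2 * inner ℝ (f x) (dd i a f x) * r) ≤ 2 * (‖f x‖ * ‖dd i a f x‖) * |r| := by
      refine (neg_le_abs _).trans ?_
      rw [abs_mul, abs_mul, abs_two]
      gcongr
    simp only
    rw [e]
    nlinarith [sq_nonneg (‖f x‖ * |r| - 2 * ‖dd i a f x‖)]
  have h1 := Finset.sum_le_sum fun a (_ : a ∈ Finset.univ) => key a
  have h2 : ∀ a : Fin 3,
      ∫ x, (‖f x‖ ^ 2 * ((w x a) ^ 2 * ((‖w x‖ ^ 2 + ε)⁻¹) ^ 2 / 2) + 2 * ‖dd i a f x‖ ^ 2) =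
      (∫ x, ‖f x‖ ^ 2 * ((w x a) ^ 2 * ((‖w x‖ ^ 2 + ε)⁻¹) ^ 2 / 2)) +
        2 * ∫ x, ‖dd i a f x‖ ^ 2 := fun a => by
    rw [integral_add (iF (by fun_prop)) ((int_sq (dd_smooth i a hf).continuous
      (dd_compact i a hs)).const_mul 2), integral_const_mul]
  simp only [h2] at h1
  rw [Finset.sum_add_distrib, ← Finset.mul_sum, ← integral_finsetSum _ fun a _ => iF (by fun_prop),
    ← integral_finsetSum _ fun a _ => iF (by fun_prop), ← sub_le_iff_le_add',
    ← integral_sub (integrable_finsetSum _ fun a _ => iF (by fun_prop))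
      (integrable_finsetSum _ fun a _ => iF (by fun_prop))] at h1
  have h3 : ∫ x, ‖f x‖ ^ 2 * ((‖w x‖ ^ 2 + ε)⁻¹ / 2) ≤ 2 * ∑ a, ∫ x, ‖dd i a f x‖ ^ 2 := by
    refine le_trans (integral_mono (iF (by fun_prop))
      ((integrable_finsetSum _ fun a _ => iF (by fun_prop)).sub
        (integrable_finsetSum _ fun a _ => iF (by fun_prop))) fun x => ?_) h1
    have e : ‖w x‖ ^ 2 = w x 0 ^ 2 + w x 1 ^ 2 + w x 2 ^ 2 := by
      rw [EuclideanSpace.real_norm_sq_eq, Fin.sum_univ_three]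
    have h4 : ‖w x‖ ^ 2 * (‖w x‖ ^ 2 + ε)⁻¹ ≤ 1 := by
      rw [← div_eq_mul_inv, div_le_one (hρ x)]; linarith
    have h5 : 0 ≤ ‖f x‖ ^ 2 * (‖w x‖ ^ 2 + ε)⁻¹ := by have := hρ x; positivity
    have h6 := mul_le_mul_of_nonneg_left h4 h5
    simp only [Fin.sum_univ_three, Pi.sub_apply]
    set q := (‖w x‖ ^ 2 + ε)⁻¹
    rw [e] at h6
    nlinarith
  simp only [← mul_div_assoc] at h3
  rw [integral_div] at h3
  linarith

theorem hardy {f : (Fin N → E3) → ℂ} (hf : ContDiff ℝ ∞ f) (hs : HasCompactSupport f)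
    (i : Fin N) (w : (Fin N → E3) → E3) (hw : Continuous w)
    (hl : ∀ x (v : E3) (t : ℝ), w (x + t • (Pi.single i v : Fin N → E3)) = w x + t • v)
    (hm : MemLp (fun x => ((1 / ‖w x‖ : ℝ) : ℂ) * f x) 2 volume) :
    ∫ x, ‖((1 / ‖w x‖ : ℝ) : ℂ) * f x‖ ^ 2 ≤ 4 * ∑ a, ∫ x, ‖dd i a f x‖ ^ 2 := by
  have cf := hf.continuous
  have e : ∀ x, ‖((1 / ‖w x‖ : ℝ) : ℂ) * f x‖ ^ 2 = ‖f x‖ ^ 2 * (‖w x‖ ^ 2)⁻¹ := fun x => by
    rw [norm_mul, Complex.norm_real, Real.norm_of_nonneg (by positivity), mul_pow, one_div, inv_pow,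
      mul_comm]
  have hi := (memLp_two_iff_integrable_sq_norm hm.1).1 hm
  simp only [e] at hi ⊢
  have hp : ∀ n : ℕ, (0 : ℝ) < 1 / ((n : ℝ) + 1) := fun n => by positivity
  have cc : ∀ n : ℕ, Continuous fun x => (‖w x‖ ^ 2 + 1 / ((n : ℝ) + 1))⁻¹ := fun n =>
    Continuous.inv₀ (by fun_prop) fun x => by positivity
  have sF : HasCompactSupport fun x => ‖f x‖ ^ 2 :=
    hs.comp_left (g := fun a : ℂ => ‖a‖ ^ 2) (by simp)
  have h1 : ∀ (n : ℕ) x, ‖w x‖ ^ 2 * (‖w x‖ ^ 2 + 1 / ((n : ℝ) + 1))⁻¹ ≤ 1 := fun n x => by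
    rw [← div_eq_mul_inv, div_le_one (by positivity)]; linarith [hp n]
  have hlim := tendsto_integral_of_dominated_convergence (μ := (volume : Measure (Fin N → E3)))
    (F := fun (n : ℕ) x => ‖f x‖ ^ 2 * (‖w x‖ ^ 2 * ((‖w x‖ ^ 2 + 1 / ((n : ℝ) + 1))⁻¹) ^ 2))
    (f := fun x => ‖f x‖ ^ 2 * (‖w x‖ ^ 2)⁻¹) (fun x => ‖f x‖ ^ 2 * (‖w x‖ ^ 2)⁻¹)
    (fun n => Continuous.aestronglyMeasurable (by have := cc n; fun_prop)) hi
    (fun n => Eventually.of_forall fun x => by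
      rw [Real.norm_of_nonneg (by positivity)]
      refine mul_le_mul_of_nonneg_left ?_ (by positivity)
      rcases (sq_nonneg ‖w x‖).eq_or_lt with h | h
      · rw [← h]; simp
      · have h2 : (‖w x‖ ^ 2 + 1 / ((n : ℝ) + 1))⁻¹ ≤ (‖w x‖ ^ 2)⁻¹ :=
          inv_anti₀ h (by linarith [hp n])
        have h3 : 0 ≤ (‖w x‖ ^ 2 + 1 / ((n : ℝ) + 1))⁻¹ := by positivity
        nlinarith [h1 n x])
    (Eventually.of_forall fun x => by
      refine Tendsto.const_mul _ ?_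
      rcases (sq_nonneg ‖w x‖).eq_or_lt with h | h
      · rw [← h]; simp
      · have h2 := (((tendsto_one_div_add_atTop_nhds_zero_nat (𝕜 := ℝ)).const_add
          (‖w x‖ ^ 2)).inv₀ (by simpa using h.ne')).pow 2 |>.const_mul (‖w x‖ ^ 2)
        have e2 : ‖w x‖ ^ 2 * (‖w x‖ ^ 2 + 0)⁻¹ ^ 2 = (‖w x‖ ^ 2)⁻¹ := by
          rw [add_zero, pow_two (‖w x‖ ^ 2)⁻¹, ← mul_assoc, mul_inv_cancel₀ h.ne', one_mul]
        rwa [e2] at h2)
  refine le_of_tendsto' hlim fun n => le_trans (integral_mono ?_ ?_ fun x => ?_)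
    (hardy_eps hf hs i w hw hl (hp n))
  · exact Continuous.integrable_of_hasCompactSupport (by have := cc n; fun_prop) sF.mul_right
  · exact Continuous.integrable_of_hasCompactSupport (by have := cc n; fun_prop) sF.mul_right
  · refine mul_le_mul_of_nonneg_left ?_ (by positivity)
    have h3 : 0 ≤ (‖w x‖ ^ 2 + 1 / ((n : ℝ) + 1))⁻¹ := by positivity
    nlinarith [h1 n x]

/-- kinetic energy plus norm -/
noncomputable def h1n (f : (Fin N → E3) → ℂ) : ℝ :=
  (∑ i, ∑ a, ∫ x, ‖dd i a f x‖ ^ 2) + ∫ x, ‖f x‖ ^ 2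

theorem h1n_nonneg (f : (Fin N → E3) → ℂ) : 0 ≤ h1n f := by unfold h1n; positivity

/-- multipliers from H^1 to L^2 -/
def Good (m : (Fin N → E3) → ℝ) : Prop := ∃ C : ℝ, 0 ≤ C ∧ ∀ f : (Fin N → E3) → ℂ,
  ContDiff ℝ ∞ f → HasCompactSupport f → MemLp (fun x => (m x : ℂ) * f x) 2 volume ∧
    ∫ x, ‖(m x : ℂ) * f x‖ ^ 2 ≤ C * h1n f

theorem Good.add {m m' : (Fin N → E3) → ℝ} (h : Good m) (h' : Good m') :
    Good fun x => m x + m' x := by
  obtain ⟨C, hC, h⟩ := h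
  obtain ⟨C', hC', h'⟩ := h'
  refine ⟨2 * C + 2 * C', by positivity, fun f hf hs => ?_⟩
  obtain ⟨a1, a2⟩ := h f hf hs
  obtain ⟨b1, b2⟩ := h' f hf hs
  have e : (fun x => ((m x + m' x : ℝ) : ℂ) * f x) = fun x => (m x : ℂ) * f x + (m' x : ℂ) * f x := by
    funext x; push_cast; ring
  have c1 : MemLp (fun x => ((m x + m' x : ℝ) : ℂ) * f x) 2 volume := e ▸ a1.add b1
  refine ⟨c1, ?_⟩
  have ia := (memLp_two_iff_integrable_sq_norm a1.1).1 a1
  have ib := (memLp_two_iff_integrable_sq_norm b1.1).1 b1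
  have h3 := integral_mono ((memLp_two_iff_integrable_sq_norm c1.1).1 c1)
    ((ia.const_mul 2).add (ib.const_mul 2)) fun x => by
      have h4 := norm_add_le ((m x : ℂ) * f x) ((m' x : ℂ) * f x)
      have h5 := pow_le_pow_left₀ (norm_nonneg _) h4 2
      simp only [Pi.add_apply]
      rw [congrFun e x]
      nlinarith [sq_nonneg (‖(m x : ℂ) * f x‖ - ‖(m' x : ℂ) * f x‖)]
  simp only [Pi.add_apply] at h3
  rw [integral_add (ia.const_mul 2) (ib.const_mul 2), integral_const_mul, integral_const_mul] at h3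
  linarith

theorem Good.smul {m : (Fin N → E3) → ℝ} (h : Good m) (c : ℝ) : Good fun x => c * m x := by
  obtain ⟨C, hC, h⟩ := h
  refine ⟨c ^ 2 * C, by positivity, fun f hf hs => ?_⟩
  obtain ⟨a1, a2⟩ := h f hf hs
  have e : ∀ x, ((c * m x : ℝ) : ℂ) * f x = (c : ℂ) * ((m x : ℂ) * f x) := by
    intro x; push_cast; ring
  simp only [e]
  refine ⟨a1.const_mul _, ?_⟩
  simp only [norm_mul (c : ℂ), mul_pow, Complex.norm_real, Real.norm_eq_abs, sq_abs]
  rw [integral_const_mul, mul_assoc]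
  exact mul_le_mul_of_nonneg_left a2 (by positivity)

theorem good_const (c : ℝ) : Good fun _ : Fin N → E3 => c := by
  have h : Good fun _ : Fin N → E3 => (1 : ℝ) := ⟨1, zero_le_one, fun f hf hs => by
    simp only [Complex.ofReal_one, one_mul]
    refine ⟨hf.continuous.memLp_of_hasCompactSupport hs, le_add_of_nonneg_left (by positivity)⟩⟩
  simpa using h.smul c

theorem good_sum {ι : Type} (s : Finset ι) (m : ι → (Fin N → E3) → ℝ) (h : ∀ i ∈ s, Good (m i)) :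
    Good fun x => ∑ i ∈ s, m i x := by
  classical
  induction s using Finset.induction_on with
  | empty => simpa using good_const (N := N) 0
  | insert j s hj ih =>
    simp only [Finset.sum_insert hj]
    exact (h j (Finset.mem_insert_self _ _)).add (ih fun i hi => h i (Finset.mem_insert_of_mem hi))

theorem good_sing (i : Fin N) (w : (Fin N → E3) → E3) (hw : Continuous w)
    (hl : ∀ x (v : E3) (t : ℝ), w (x + t • (Pi.single i v : Fin N → E3)) = w x + t • v)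
    (hm : ∀ f : (Fin N → E3) → ℂ, Continuous f → HasCompactSupport f →
      MemLp (fun x => ((1 / ‖w x‖ : ℝ) : ℂ) * f x) 2 volume) : Good fun x => 1 / ‖w x‖ := by
  refine ⟨4, by norm_num, fun f hf hs => ⟨hm f hf.continuous hs, ?_⟩⟩
  refine (hardy hf hs i w hw hl (hm f hf.continuous hs)).trans ?_
  have h1 : ∑ a, ∫ x, ‖dd i a f x‖ ^ 2 ≤ ∑ i, ∑ a, ∫ x, ‖dd i a f x‖ ^ 2 :=
    Finset.single_le_sum (f := fun i => ∑ a, ∫ x, ‖dd i a f x‖ ^ 2) (fun _ _ => by positivity)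
      (Finset.mem_univ i)
  have h2 : 0 ≤ ∫ x, ‖f x‖ ^ 2 := by positivity
  unfold h1n
  linarith

theorem good_pw (z : Fin k → ℝ) (R : Fin k → E3) : Good (pw (N := N) z R) := by
  have h1 : Good fun x : Fin N → E3 => ∑ i, ∑ j, z j * (1 / ‖x i - R j‖) :=
    good_sum _ _ fun i _ => good_sum _ _ fun j _ =>
      (good_sing i (fun x => x i - R j) (by fun_prop) (fun x v t => by simp; abel)
        fun f hf hs => memLp_nuc hf hs i (R j)).smul _
  have h2 : Good fun x : Fin N → E3 => ∑ i, ∑ j with i < j, 1 / ‖x i - x j‖ :=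
    good_sum _ _ fun i _ => good_sum _ _ fun j hj =>
      have hij : i ≠ j := (Finset.mem_filter.1 hj).2.ne
      good_sing i (fun x => x i - x j) (by fun_prop) (fun x v t => by simp [hij.symm]; abel)
        fun f hf hs => memLp_pair hf hs i j hij
  convert ((h1.smul (-1)).add h2).add (good_const (nucU z R)) using 2 with x
  simp only [pw, nucV, neg_mul, one_mul, mul_one_div]

end TFS49
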