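import Pool.Agent.Lib.TFS49.Abs

/-! An abstract criterion for essential self-adjointness. -/

open scoped InnerProductSpace

namespace TFS49

variable {H : Type} [NormedAddCommGroup H] [InnerProductSpace ℂ H] [CompleteSpace H]
  {V : Type} [AddCommGroup V] [Module ℂ V]

theorem dense_of_orth (T : V →ₗ[ℂ] H) (h : ∀ g, (∀ v, ⟪g, T v⟫_ℂ = 0) → g = 0) :
    Dense (Set.range T) := by
  have h1 : (LinearMap.range T).topologicalClosure = ⊤ := by
    rw [Submodule.topologicalClosure_eq_top_iff, eq_bot_iff]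
    intro g hg
    refine h g fun v => ?_
    exact inner_eq_zero_symm.1 ((Submodule.mem_orthogonal _ _).1 hg _ ⟨v, rfl⟩)
  exact Submodule.dense_iff_topologicalClosure_eq_top.2 h1

omit [CompleteSpace H] in
theorem orth_pert (P W : V →ₗ[ℂ] H) (hP : Dense (Set.range P)) (hW : ∀ v, 2 * ‖W v‖ ≤ ‖P v‖)
    (g : H) (hg : ∀ v, ⟪g, P v + W v⟫_ℂ = 0) : g = 0 := by
  have hc : IsClosed {p : H | 2 * ‖⟪g, p⟫_ℂ‖ ≤ ‖g‖ * ‖p‖} := isClosed_le (by fun_prop) (by fun_prop)
  have h1 : g ∈ {p : H | 2 * ‖⟪g, p⟫_ℂ‖ ≤ ‖g‖ * ‖p‖} := by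
    refine closure_minimal ?_ hc (hP g)
    rintro _ ⟨v, rfl⟩
    have h2 : ⟪g, P v⟫_ℂ = -⟪g, W v⟫_ℂ := by
      have := hg v
      rw [inner_add_right] at this
      exact eq_neg_of_add_eq_zero_left this
    have h3 := norm_inner_le_norm (𝕜 := ℂ) g (W v)
    have h4 := mul_le_mul_of_nonneg_left (hW v) (norm_nonneg g)
    change 2 * ‖⟪g, P v⟫_ℂ‖ ≤ ‖g‖ * ‖P v‖
    rw [h2, norm_neg]
    linarith
  have h5 : 2 * ‖⟪g, g⟫_ℂ‖ ≤ ‖g‖ * ‖g‖ := h1
  rw [inner_self_eq_norm_sq_to_K, norm_pow, RCLike.norm_ofReal, abs_norm] at h5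
  have h6 : ‖g‖ = 0 := by nlinarith [norm_nonneg g]
  exact norm_eq_zero.1 h6

theorem exists_sa (ι T : V →ₗ[ℂ] H) (a c : ℝ) (hc : 0 ≤ c)
    (hs : Sym (Set.range fun v => (ι v, T v))) (hd : Dense (Set.range ι))
    (hlow : ∀ v, ‖ι v‖ ≤ c * ‖T v + (a : ℂ) • ι v‖)
    (hr : Dense (Set.range fun v => T v + (a : ℂ) • ι v)) :
    ((-a : ℝ) : ℂ) ∉ spec (closure (Set.range fun v => (ι v, T v))) ∧
    ∃ A : H →ₗ.[ℂ] H, IsSelfAdjoint A ∧
      (A.graph : Set (H × H)) = closure (Set.range fun v => (ι v, T v)) := by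
  let G : Submodule ℂ (H × H) := (LinearMap.range (ι.prod T)).topologicalClosure
  have hG : (G : Set (H × H)) = closure (Set.range fun v => (ι v, T v)) := rfl
  have hsym : Sym (G : Set (H × H)) := hs.closure
  have hmem : ∀ v, (ι v, T v) ∈ G := fun v => subset_closure ⟨v, rfl⟩
  have hz : ∀ (S : Set H) (g : H), Dense S → (∀ p ∈ S, ⟪g, p⟫_ℂ = 0) → g = 0 := by
    intro S g hS h
    have hcl : IsClosed {p : H | ⟪g, p⟫_ℂ = 0} := isClosed_eq (by fun_prop) continuous_const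
    exact inner_self_eq_zero.1 (closure_minimal h hcl (hS g))
  have hfun : ∀ x : H × H, x ∈ G → x.1 = 0 → x.2 = 0 := by
    intro x hx h0
    refine hz _ _ hd ?_
    rintro _ ⟨v, rfl⟩
    have := hsym x hx _ (hmem v)
    rwa [h0, inner_zero_left] at this
  have hgr : G.toLinearPMap.graph = G := Submodule.toLinearPMap_graph_eq G hfun
  have hlowG : ∀ p ∈ G, ‖p.1‖ ≤ c * ‖p.2 + (a : ℂ) • p.1‖ := by
    intro p hp
    have hcl : IsClosed {p : H × H | ‖p.1‖ ≤ c * ‖p.2 + (a : ℂ) • p.1‖} :=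
      isClosed_le (by fun_prop) (by fun_prop)
    exact closure_minimal (by rintro _ ⟨v, rfl⟩; exact hlow v) hcl hp
  have : CompleteSpace G := (Submodule.isClosed_topologicalClosure _).completeSpace_coe
  let Φ : G →L[ℂ] H :=
    (ContinuousLinearMap.snd ℂ H H + (a : ℂ) • ContinuousLinearMap.fst ℂ H H).comp G.subtypeL
  have hΦ : ∀ p : G, Φ p = p.1.2 + (a : ℂ) • p.1.1 := fun _ => rfl
  have hanti : AntilipschitzWith (⟨1 + c + |a| * c, by positivity⟩ : NNReal) Φ := by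
    refine Φ.antilipschitz_of_bound fun p => ?_
    have h1 := hlowG p.1 p.2
    rw [← hΦ] at h1
    have h2 : p.1.2 = Φ p - (a : ℂ) • p.1.1 := by rw [hΦ, add_sub_cancel_right]
    have h3 : ‖p.1.2‖ ≤ ‖Φ p‖ + |a| * ‖p.1.1‖ := by
      rw [h2]
      refine (norm_sub_le _ _).trans_eq ?_
      rw [norm_smul, Complex.norm_real, Real.norm_eq_abs]
    have h4 := mul_le_mul_of_nonneg_left h1 (abs_nonneg a)
    have h5 : 0 ≤ |a| * c * ‖Φ p‖ := by positivity
    have h6 : 0 ≤ c * ‖Φ p‖ := by positivity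
    change max ‖p.1.1‖ ‖p.1.2‖ ≤ (1 + c + |a| * c) * ‖Φ p‖
    refine max_le ?_ ?_ <;> nlinarith [norm_nonneg (Φ p)]
  have hsurj : ∀ g, ∃ p : G, Φ p = g := fun g =>
    closure_minimal (s := Set.range fun v => T v + (a : ℂ) • ι v) (t := Set.range Φ)
      (by rintro _ ⟨v, rfl⟩; exact ⟨⟨_, hmem v⟩, rfl⟩)
      (hanti.isClosed_range Φ.uniformContinuous) (hr g)
  have hdom : Dense (G.toLinearPMap.domain : Set H) := by
    refine hd.mono ?_
    rintro _ ⟨v, rfl⟩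
    exact ⟨_, hmem v, rfl⟩
  refine ⟨not_not.2 ?_, G.toLinearPMap, ?_, by rw [hgr, hG]⟩
  · let e := ContinuousLinearEquiv.ofBijective Φ (LinearMap.ker_eq_bot.2 hanti.injective)
      (LinearMap.range_eq_top.2 hsurj)
    have he : ∀ p : G, e p = p.1.2 + (a : ℂ) • p.1.1 := fun _ => rfl
    refine ⟨(ContinuousLinearMap.fst ℂ H H).comp (G.subtypeL.comp (e.symm : H →L[ℂ] G)), fun g => ?_,
      fun p hp => ?_⟩
    · have h1 := he (e.symm g)
      rw [e.apply_symm_apply] at h1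
      have h2 : g + ((-a : ℝ) : ℂ) • (e.symm g).1.1 = (e.symm g).1.2 := by
        rw [Complex.ofReal_neg, neg_smul, ← sub_eq_add_neg, sub_eq_iff_eq_add]
        exact h1
      change ((e.symm g).1.1, g + ((-a : ℝ) : ℂ) • (e.symm g).1.1) ∈ _
      rw [h2]
      exact (e.symm g).2
    · rw [Complex.ofReal_neg, neg_smul, sub_neg_eq_add, ← he ⟨p, hp⟩]
      change (e.symm (e ⟨p, hp⟩)).1.1 = _
      rw [e.symm_apply_apply]
  rw [LinearPMap.isSelfAdjoint_def]
  apply LinearPMap.eq_of_eq_graph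
  rw [LinearPMap.adjoint_graph_eq_graph_adjoint hdom, hgr]
  ext q
  rw [Submodule.mem_adjoint_iff]
  constructor
  · intro h
    obtain ⟨p, hp⟩ := hsurj (q.2 + (a : ℂ) • q.1)
    rw [hΦ] at hp
    have h1 : q.1 - p.1.1 = 0 := by
      refine hz _ _ hr ?_
      rintro _ ⟨v, rfl⟩
      rw [inner_eq_zero_symm]
      have h2 := sub_eq_zero.1 (h _ _ (hmem v))
      have h3 := hsym _ (hmem v) _ p.2
      have h4 := congrArg (fun w => ⟪ι v, w⟫_ℂ) hp
      simp only [inner_add_right, inner_smul_right] at h4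
      simp only [inner_add_left, inner_sub_right, inner_smul_left, Complex.conj_ofReal]
      simp only at h3
      rw [h2, h3]
      linear_combination -h4
    have h5 : q.1 = p.1.1 := sub_eq_zero.1 h1
    have h6 : q.2 = p.1.2 := by
      rw [h5] at hp
      exact (add_right_cancel hp).symm
    have h7 : q = p.1 := Prod.ext h5 h6
    rw [h7]
    exact p.2
  · intro h x y hxy
    exact sub_eq_zero.2 (hsym _ hxy _ h)

end TFS49
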