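import Pool.Agent.Lib.TFS49.Hardy
import Pool.Agent.Lib.TFS49.Ell
import Pool.Agent.Lib.TFS49.SA

/-! Essential self-adjointness of the Coulomb Hamiltonian (Kato). -/

open MeasureTheory
open scoped ContDiff InnerProductSpace ComplexConjugate

namespace TFS49

open Pool.Agent.Lib.MP_f7be6d_mp

variable {N k : ℕ}

/-- smooth and compactly supported in the positions -/
def Tst (ψ : Cfg N → ℂ) : Prop :=
  ∀ s, ContDiff ℝ ∞ (fun x => ψ (emb s x)) ∧ HasCompactSupport fun x => ψ (emb s x)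

theorem IsCore.tst {ψ : Cfg N → ℂ} (h : IsCore ψ) : Tst ψ := fun s => ⟨h.smooth s, h.compact s⟩

/-- the kinetic energy operator -/
noncomputable def lapl (ψ : Cfg N → ℂ) (y : Cfg N) : ℂ :=
  nl (fun x => ψ (emb (fun i => (y i).2) x)) fun i => (y i).1

/-- multiplication by the potential -/
noncomputable def pot (z : Fin k → ℝ) (R : Fin k → E3) (ψ : Cfg N → ℂ) (y : Cfg N) : ℂ :=
  (pw z R fun i => (y i).1 : ℝ) * ψ y

theorem ham_eq (z : Fin k → ℝ) (R : Fin k → E3) {ψ : Cfg N → ℂ} (h : IsCore ψ) (y : Cfg N) :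
    ham z R ψ y = lapl ψ y + pot z R ψ y := ham_slice z R h (fun i => (y i).2) fun i => (y i).1

theorem lapl_eq {ψ : Cfg N → ℂ} (h : Tst ψ) (y : Cfg N) : lapl ψ y =
    -∑ i, Laplacian.laplacian (fun t : E3 => ψ (Function.update y i (t, (y i).2))) (y i).1 := by
  unfold lapl nl
  congr 1
  refine Finset.sum_congr rfl fun i _ => ?_
  rw [← lap_eq (h _).1]
  refine congrArg (fun f : E3 → ℂ => Laplacian.laplacian f (y i).1) (funext fun t => ?_)
  congr 1
  funext j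
  by_cases hj : j = i
  · subst hj; simp [emb]
  · simp [emb, hj]

theorem Tst.perm {ψ : Cfg N → ℂ} (h : Tst ψ) (π : Equiv.Perm (Fin N)) :
    Tst fun y => ψ (y ∘ π) := fun s =>
  ⟨(h (s ∘ π)).1.comp (f := fun x : Fin N → E3 => x ∘ π)
      (contDiff_pi.2 fun i => contDiff_apply ℝ E3 (π i)),
    (h (s ∘ π)).2.comp_homeomorph (Homeomorph.piCongrLeft (Y := fun _ => E3) π).symm⟩

theorem lapl_perm {ψ : Cfg N → ℂ} (h : Tst ψ) (π : Equiv.Perm (Fin N)) (y : Cfg N) :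
    lapl (fun y => ψ (y ∘ π)) y = lapl ψ (y ∘ π) := by
  rw [lapl_eq h, lapl_eq (h.perm π), ← Equiv.sum_comp π]
  simp only [Function.update_comp_eq_of_injective _ π.injective]
  rfl

theorem dd_add (i : Fin N) (a : Fin 3) {f g : (Fin N → E3) → ℂ} (hf : ContDiff ℝ ∞ f)
    (hg : ContDiff ℝ ∞ g) : dd i a (fun x => f x + g x) = fun x => dd i a f x + dd i a g x := by
  funext x
  unfold dd
  rw [fderiv_fun_add (hf.differentiable (by simp) x) (hg.differentiable (by simp) x)]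
  rfl

theorem dd_mul (i : Fin N) (a : Fin 3) (c : ℂ) {f : (Fin N → E3) → ℂ} (hf : ContDiff ℝ ∞ f) :
    dd i a (fun x => c * f x) = fun x => c * dd i a f x := by
  funext x
  unfold dd
  rw [fderiv_const_mul (hf.differentiable (by simp) x)]
  rfl

theorem Tst.add {ψ φ : Cfg N → ℂ} (h : Tst ψ) (h' : Tst φ) : Tst fun y => ψ y + φ y := fun s =>
  ⟨(h s).1.add (h' s).1, (h s).2.add (h' s).2⟩

theorem Tst.mul {ψ : Cfg N → ℂ} (h : Tst ψ) (c : ℂ) : Tst fun y => c * ψ y := fun s =>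
  ⟨contDiff_const.mul (h s).1, (h s).2.mul_left⟩

theorem tst_zero : Tst fun _ : Cfg N => 0 := fun _ => ⟨contDiff_const, HasCompactSupport.zero⟩

theorem lapl_add {ψ φ : Cfg N → ℂ} (h : Tst ψ) (h' : Tst φ) (y : Cfg N) :
    lapl (fun y => ψ y + φ y) y = lapl ψ y + lapl φ y := by
  unfold lapl nl
  simp only [dd_add _ _ (h _).1 (h' _).1,
    dd_add _ _ (dd_smooth _ _ (h _).1) (dd_smooth _ _ (h' _).1), Finset.sum_add_distrib, neg_add]

theorem lapl_mul {ψ : Cfg N → ℂ} (h : Tst ψ) (c : ℂ) (y : Cfg N) :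
    lapl (fun y => c * ψ y) y = c * lapl ψ y := by
  unfold lapl nl
  simp only [dd_mul _ _ c (h _).1, dd_mul _ _ c (dd_smooth _ _ (h _).1), Finset.mul_sum, mul_neg]

theorem sum_tst {ι : Type} (s : Finset ι) (ψ : ι → Cfg N → ℂ) (h : ∀ i, Tst (ψ i)) :
    Tst (fun y => ∑ i ∈ s, ψ i y) ∧
      ∀ y, lapl (fun y => ∑ i ∈ s, ψ i y) y = ∑ i ∈ s, lapl (ψ i) y := by
  classical
  induction s using Finset.induction_on with
  | empty =>
    refine ⟨by simpa using tst_zero, fun y => ?_⟩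
    simpa using lapl_mul (tst_zero (N := N)) 0 y
  | insert j s hj ih =>
    simp only [Finset.sum_insert hj]
    exact ⟨(h j).add ih.1, fun y => by rw [lapl_add (h j) ih.1, ih.2]⟩

theorem nl_memLp {f : (Fin N → E3) → ℂ} (h1 : ContDiff ℝ ∞ f) (h2 : HasCompactSupport f) :
    MemLp (nl f) 2 volume :=
  (memLp_finsetSum _ fun i _ => memLp_finsetSum _ fun a _ =>
    (dd_smooth i a (dd_smooth i a h1)).continuous.memLp_of_hasCompactSupport
      (dd_compact i a (dd_compact i a h2))).neg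

theorem Tst.memLp {ψ : Cfg N → ℂ} (h : Tst ψ) : MemLp ψ 2 (mu N) :=
  memLp_of_slices fun s => (h s).1.continuous.memLp_of_hasCompactSupport (h s).2

theorem Tst.memLp_lapl {ψ : Cfg N → ℂ} (h : Tst ψ) : MemLp (lapl ψ) 2 (mu N) :=
  memLp_of_slices fun s => by
    have e : (fun x => lapl ψ (emb s x)) = nl fun x => ψ (emb s x) := rfl
    rw [e]
    exact nl_memLp (h s).1 (h s).2

theorem Tst.memLp_pot (z : Fin k → ℝ) (R : Fin k → E3) {ψ : Cfg N → ℂ} (h : Tst ψ) :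
    MemLp (pot z R ψ) 2 (mu N) :=
  memLp_of_slices fun s => memLp_pw z R (h s).1.continuous (h s).2

/-- antisymmetrisation -/
noncomputable def asym (F : Cfg N → ℂ) (y : Cfg N) : ℂ :=
  ∑ π : Equiv.Perm (Fin N), ((Equiv.Perm.sign π : ℤ) : ℂ) * F (y ∘ π)

theorem asym_core {ψ : Cfg N → ℂ} (h : Tst ψ) :
    IsCore (asym ψ) ∧ ∀ y, lapl (asym ψ) y = asym (lapl ψ) y := by
  obtain ⟨h1, h2⟩ := sum_tst Finset.univ
    (fun (π : Equiv.Perm (Fin N)) y => ((Equiv.Perm.sign π : ℤ) : ℂ) * ψ (y ∘ π))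
    fun π => (h.perm π).mul _
  refine ⟨⟨fun s => (h1 s).1, fun s => (h1 s).2, fun σ y => ?_⟩, fun y => (h2 y).trans ?_⟩
  · unfold asym
    rw [Finset.mul_sum, ← Equiv.sum_comp (Equiv.mulLeft σ)
      fun π => ((Equiv.Perm.sign σ : ℤ) : ℂ) * (((Equiv.Perm.sign π : ℤ) : ℂ) * ψ (y ∘ π))]
    refine Finset.sum_congr rfl fun π _ => ?_
    rcases Int.units_eq_one_or (Equiv.Perm.sign σ) with h3 | h3 <;>
      simp [h3, Function.comp_assoc]
  · exact Finset.sum_congr rfl fun π _ => by rw [lapl_mul (h.perm π), lapl_perm h]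

theorem int_asym (g : anti N) {F : Cfg N → ℂ} (hF : MemLp F 2 (mu N)) :
    ∫ y, conj (g.1 y) * asym F y ∂mu N =
      Fintype.card (Equiv.Perm (Fin N)) * ∫ y, conj (g.1 y) * F y ∂mu N := by
  have hg := Lp.memLp g.1
  simp only [asym, Finset.mul_sum]
  have m : ∀ π : Equiv.Perm (Fin N), MemLp (fun y : Cfg N => F (y ∘ π)) 2 (mu N) :=
    fun π => hF.comp_measurePreserving (perm_mp π)
  rw [integral_finsetSum _ fun π _ => int_conj_mul hg ((m π).const_mul _)]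
  rw [← nsmul_eq_mul, ← Finset.card_univ, ← Finset.sum_const]
  refine Finset.sum_congr rfl fun π _ => ?_
  have hi := int_conj_mul hg hF
  have h1 := integral_map (perm_mp π).aemeasurable (f := fun y => conj (g.1 y) * F y)
    (by rw [(perm_mp π).map_eq]; exact hi.1)
  rw [(perm_mp π).map_eq] at h1
  rw [h1]
  refine integral_congr_ae ?_
  filter_upwards [g.2 π] with y hy
  rw [hy, map_mul, map_intCast]
  ring

theorem slice_memLp {F : Cfg N → ℂ} (hF : MemLp F 2 (mu N)) (s : Fin N → Fin 2) :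
    MemLp (fun x => F (emb s x)) 2 volume := by
  refine (emb_me s).memLp_map_measure_iff.1 (hF.mono_measure ?_)
  rw [mu_eq]
  exact Finset.single_le_sum (f := fun s => (volume : Measure (Fin N → E3)).map (emb s))
    (fun _ _ => Measure.zero_le _) (Finset.mem_univ s)

theorem zero_of_orth (g : anti N) (b c : ℂ)
    (h : ∀ ψ, IsCore ψ → ∫ y, conj (g.1 y) * (b * lapl ψ y + c * ψ y) ∂mu N = 0)
    (hz : ∀ f : (Fin N → E3) → ℂ, MemLp f 2 volume → (∀ φ : (Fin N → E3) → ℂ, ContDiff ℝ ∞ φ →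
      HasCompactSupport φ → ∫ x, f x * (b * nl φ x + c * φ x) = 0) → ∀ᵐ x, f x = 0) : g = 0 := by
  have hg := Lp.memLp g.1
  have hm : ∀ ψ : Cfg N → ℂ, Tst ψ → MemLp (fun y => b * lapl ψ y + c * ψ y) 2 (mu N) :=
    fun ψ hψ => (hψ.memLp_lapl.const_mul b).add (hψ.memLp.const_mul c)
  have h1 : ∀ ψ, Tst ψ → ∫ y, conj (g.1 y) * (b * lapl ψ y + c * ψ y) ∂mu N = 0 := by
    intro ψ hψ
    have h2 := h _ (asym_core hψ).1
    have e : ∀ y, b * lapl (asym ψ) y + c * asym ψ y = asym (fun y => b * lapl ψ y + c * ψ y) y := by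
      intro y
      rw [(asym_core hψ).2]
      simp only [asym, Finset.mul_sum, ← Finset.sum_add_distrib]
      exact Finset.sum_congr rfl fun π _ => by ring
    simp only [e] at h2
    rw [int_asym g (hm ψ hψ)] at h2
    exact (mul_eq_zero.1 h2).resolve_left (by exact_mod_cast Fintype.card_ne_zero)
  have h3 : ∀ s, ∀ᵐ x, conj (g.1 (emb s x)) = 0 := by
    intro s
    refine hz _ (slice_memLp hg s).star fun φ p1 p2 => ?_
    let ψ : Cfg N → ℂ := fun y => (if (fun i => (y i).2) = s then 1 else 0) * φ fun i => (y i).1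
    have e : ∀ s' x, ψ (emb s' x) = (if s' = s then 1 else 0) * φ x := fun _ _ => rfl
    have hψ : Tst ψ := fun s' => by
      simp only [e]
      exact ⟨contDiff_const.mul p1, p2.mul_left⟩
    have e2 : ∀ s' x, lapl ψ (emb s' x) = (if s' = s then 1 else 0) * nl φ x := by
      intro s' x
      change nl (fun x => ψ (emb s' x)) x = _
      simp only [e, nl, dd_mul _ _ _ p1, dd_mul _ _ _ (dd_smooth _ _ p1), Finset.mul_sum, mul_neg]
    have h4 := h1 ψ hψ
    rw [integral_slices fun s' => int_conj_mul (slice_memLp hg s')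
      (slice_memLp (hm ψ hψ) s'),
      Finset.sum_eq_single s (fun s' _ hs => by simp [e, e2, hs]) (by simp)] at h4
    simpa [e, e2] using h4
  apply Subtype.ext
  rw [Submodule.coe_zero, Lp.eq_zero_iff_ae_eq_zero]
  have h5 : ∀ᵐ y ∂(Measure.sum fun s => (volume : Measure (Fin N → E3)).map (emb s)),
      g.1 y = 0 := by
    rw [Measure.ae_sum_iff]
    intro s
    rw [(emb_me s).ae_map_iff]
    filter_upwards [h3 s] with x hx
    simpa using hx
  rw [Measure.sum_fintype, ← mu_eq] at h5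
  exact h5

/-- the core as a vector space -/
def coreSub (N : ℕ) : Submodule ℂ (Cfg N → ℂ) where
  carrier := {ψ | IsCore ψ}
  add_mem' := fun {ψ φ} h h' => ⟨fun s => (h.tst.add h'.tst s).1, fun s => (h.tst.add h'.tst s).2,
    fun π y => by rw [Pi.add_apply, Pi.add_apply, h.antisymm, h'.antisymm, mul_add]⟩
  zero_mem' := ⟨fun s => (tst_zero s).1, fun s => (tst_zero s).2, fun π y => by simp⟩
  smul_mem' := fun c ψ h => ⟨fun s => (h.tst.mul c s).1, fun s => (h.tst.mul c s).2,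
    fun π y => by
      rw [Pi.smul_apply, Pi.smul_apply, h.antisymm, smul_eq_mul, smul_eq_mul, mul_left_comm]⟩

theorem exists_lin (F : (Cfg N → ℂ) → Cfg N → ℂ) (h1 : ∀ ψ, IsCore ψ → MemLp (F ψ) 2 (mu N))
    (h2 : ∀ ψ, IsCore ψ → ∀ (π : Equiv.Perm (Fin N)) y,
      F ψ (y ∘ π) = ((Equiv.Perm.sign π : ℤ) : ℂ) * F ψ y)
    (h3 : ∀ ψ φ, IsCore ψ → IsCore φ → ∀ y, F (fun y => ψ y + φ y) y = F ψ y + F φ y)
    (h4 : ∀ (c : ℂ) ψ, IsCore ψ → ∀ y, F (fun y => c * ψ y) y = c * F ψ y) :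
    ∃ T : coreSub N →ₗ[ℂ] anti N, ∀ v, ((T v).1 : Cfg N → ℂ) =ᵐ[mu N] F v.1 := by
  refine ⟨⟨⟨fun v => ⟨(h1 v.1 v.2).toLp _, toLp_mem _ (h2 v.1 v.2)⟩, fun u v => ?_⟩,
    fun c v => ?_⟩, fun v => (h1 v.1 v.2).coeFn_toLp⟩
  · apply Subtype.ext
    have e : F (u + v).1 = F u.1 + F v.1 := funext (h3 _ _ u.2 v.2)
    exact (MemLp.toLp_congr (h1 _ (u + v).2) ((h1 _ u.2).add (h1 _ v.2)) (by rw [e])).trans
      (MemLp.toLp_add (h1 _ u.2) (h1 _ v.2))
  · apply Subtype.ext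
    have e : F (c • v).1 = c • F v.1 := funext (h4 c _ v.2)
    exact (MemLp.toLp_congr (h1 _ (c • v).2) ((h1 _ v.2).const_smul c) (by rw [e])).trans
      (MemLp.toLp_const_smul c (h1 _ v.2))

theorem norm_sq_eq (f : anti N) {F : Cfg N → ℂ} (hf : (f.1 : Cfg N → ℂ) =ᵐ[mu N] F)
    (hF : MemLp F 2 (mu N)) : ‖f‖ ^ 2 = ∑ s, ∫ x, ‖F (emb s x)‖ ^ 2 := by
  have h3 := inner_eq _ _ hf hf
  have e : ⟪f, f⟫_ℂ = (‖f‖ : ℂ) ^ 2 := inner_self_eq_norm_sq_to_K (𝕜 := ℂ) f
  rw [e, integral_slices fun s => int_conj_mul (slice_memLp hF s) (slice_memLp hF s)] at h3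
  simp only [int_conj_self] at h3
  exact_mod_cast h3

theorem kato0 (z : Fin k → ℝ) (R : Fin k → E3) : ∃ a0 : ℝ, ∀ a : ℝ, a0 ≤ a →
    ((-a : ℝ) : ℂ) ∉ spec (closure (graph0 N z R)) ∧ ∃ A : anti N →ₗ.[ℂ] anti N, IsSelfAdjoint A ∧
    (A.graph : Set (anti N × anti N)) = closure (graph0 N z R) := by
  have aL : ∀ ψ : Cfg N → ℂ, IsCore ψ → ∀ (π : Equiv.Perm (Fin N)) y,
      lapl ψ (y ∘ π) = ((Equiv.Perm.sign π : ℤ) : ℂ) * lapl ψ y := by
    intro ψ h π y
    rw [← lapl_perm h.tst, ← lapl_mul h.tst]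
    simp only [h.antisymm]
  obtain ⟨ι, hι⟩ := exists_lin (N := N) (fun ψ => ψ) (fun ψ h => h.tst.memLp)
    (fun ψ h => h.antisymm) (fun _ _ _ _ _ => rfl) fun _ _ _ _ => rfl
  obtain ⟨D, hD⟩ := exists_lin (N := N) lapl (fun ψ h => h.tst.memLp_lapl) aL
    (fun _ _ h h' => lapl_add h.tst h'.tst) fun c _ h => lapl_mul h.tst c
  obtain ⟨W, hW⟩ := exists_lin (N := N) (pot z R) (fun ψ h => h.tst.memLp_pot z R)
    (fun ψ h π y => by
      have := ham_anti z R h π y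
      rw [ham_eq z R h, ham_eq z R h, aL ψ h, mul_add] at this
      exact add_left_cancel this)
    (fun _ _ _ _ _ => mul_add _ _ _) fun _ _ _ _ => mul_left_comm _ _ _
  have hT : ∀ v, (((D + W) v).1 : Cfg N → ℂ) =ᵐ[mu N] ham z R v.1 := by
    intro v
    filter_upwards [hD v, hW v, Lp.coeFn_add (D v).1 (W v).1] with y a b c
    rw [ham_eq z R v.2, ← a, ← b]
    exact c
  have hg : (Set.range fun v => (ι v, (D + W) v)) = graph0 N z R := by
    ext p
    constructor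
    · rintro ⟨v, rfl⟩
      exact ⟨v.1, v.2, hι v, hT v⟩
    · rintro ⟨ψ, h, h1, h2⟩
      exact ⟨⟨ψ, h⟩, Prod.ext (Subtype.ext (Lp.ext ((hι _).trans h1.symm)))
        (Subtype.ext (Lp.ext ((hT _).trans h2.symm)))⟩
  obtain ⟨C, hC, hgood⟩ := good_pw (N := N) z R
  refine ⟨4 * C + 1, fun a ha => ?_⟩
  have ha1 : 1 ≤ a := by linarith
  have hP : ∀ v, (((D + (a : ℂ) • ι) v).1 : Cfg N → ℂ) =ᵐ[mu N]
      fun y => 1 * lapl v.1 y + a * v.1 y := by
    intro v
    filter_upwards [hD v, hι v, Lp.coeFn_add (D v).1 ((a : ℂ) • (ι v).1),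
      Lp.coeFn_smul (a : ℂ) (ι v).1] with y a1 a2 a3 a4
    rw [Pi.add_apply, a4, Pi.smul_apply, a1, a2, smul_eq_mul] at a3
    rw [one_mul]
    exact a3
  have est : ∀ v, 2 * ‖W v‖ ≤ ‖(D + (a : ℂ) • ι) v‖ ∧ ‖ι v‖ ≤ ‖(D + (a : ℂ) • ι) v‖ := by
    intro v
    have t := IsCore.tst v.2
    set K : ℝ := ∑ s, ∑ i, ∑ b, ∫ x, ‖dd i b (fun x => v.1 (emb s x)) x‖ ^ 2 with hK
    have hK0 : 0 ≤ K := by positivity
    have e1 : ⟪ι v, D v⟫_ℂ = K := by
      rw [inner_eq _ _ (hι v) (hD v), integral_slices fun s =>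
        int_conj_mul (slice_memLp t.memLp s) (slice_memLp t.memLp_lapl s), hK, Complex.ofReal_sum]
      exact Finset.sum_congr rfl fun s _ => int_nl (t s).1 (slice_memLp t.memLp s)
        (fun i b => (dd_smooth i b (t s).1).continuous.memLp_of_hasCompactSupport
          (dd_compact i b (t s).2))
        fun i b => (dd_smooth i b (dd_smooth i b (t s).1)).continuous.memLp_of_hasCompactSupport
          (dd_compact i b (dd_compact i b (t s).2))
    have e2 : ‖W v‖ ^ 2 ≤ C * (K + ‖ι v‖ ^ 2) := by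
      rw [norm_sq_eq _ (hW v) (t.memLp_pot z R), norm_sq_eq _ (hι v) t.memLp, hK,
        ← Finset.sum_add_distrib, Finset.mul_sum]
      exact Finset.sum_le_sum fun s _ => (hgood _ (t s).1 (t s).2).2
    have e3 : ‖(D + (a : ℂ) • ι) v‖ ^ 2 = (a * ‖ι v‖) ^ 2 + 2 * (a * K) + ‖D v‖ ^ 2 := by
      have h1 : ‖(a : ℂ) • ι v + D v‖ ^ 2 = ‖(a : ℂ) • ι v‖ ^ 2 +
          2 * (⟪(a : ℂ) • ι v, D v⟫_ℂ).re + ‖D v‖ ^ 2 := norm_add_sq (𝕜 := ℂ) _ _
      have h2 : ⟪(a : ℂ) • ι v, D v⟫_ℂ = conj (a : ℂ) * ⟪ι v, D v⟫_ℂ :=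
        inner_smul_left (𝕜 := ℂ) (ι v) (D v) (a : ℂ)
      rw [h2, e1, Complex.conj_ofReal, ← Complex.ofReal_mul, Complex.ofReal_re, norm_smul,
        Complex.norm_real, Real.norm_of_nonneg (by linarith)] at h1
      rw [LinearMap.add_apply, LinearMap.smul_apply, add_comm, h1]
    have n1 := sq_nonneg ‖ι v‖
    have n2 := sq_nonneg ‖D v‖
    have n3 : a * ‖ι v‖ ^ 2 ≤ (a * ‖ι v‖) ^ 2 := by
      rw [mul_pow]
      exact mul_le_mul_of_nonneg_right (by nlinarith) n1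
    have n4 := mul_nonneg hC hK0
    have n5 := mul_nonneg hC n1
    have n6 := mul_le_mul_of_nonneg_right ha hK0
    have n7 := mul_le_mul_of_nonneg_right ha n1
    constructor
    · refine le_of_sq_le_sq ?_ (norm_nonneg _)
      rw [e3]
      nlinarith
    · refine le_of_sq_le_sq ?_ (norm_nonneg _)
      rw [e3]
      nlinarith
  have dP : Dense (Set.range (D + (a : ℂ) • ι)) := dense_of_orth _ fun g hg0 =>
    zero_of_orth g 1 a (fun ψ h => by
      rw [← inner_eq _ _ Filter.EventuallyEq.rfl (hP ⟨ψ, h⟩)]; exact hg0 _)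
      fun f hf h => elliptic hf (show 0 < a by linarith) (by simpa using h)
  have dι : Dense (Set.range ι) := dense_of_orth _ fun g hg0 =>
    zero_of_orth g 0 1 (fun ψ h => by
      simp only [zero_mul, one_mul, zero_add]
      rw [← inner_eq _ _ Filter.EventuallyEq.rfl (hι ⟨ψ, h⟩)]; exact hg0 _)
      fun f hf h => ae_zero_of_test hf (by simpa using h)
  have e4 : ∀ v, (D + W) v + (a : ℂ) • ι v = (D + (a : ℂ) • ι) v + W v := by
    intro v
    simp only [LinearMap.add_apply, LinearMap.smul_apply]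
    abel
  rw [← hg]
  refine exists_sa ι (D + W) a 2 zero_le_two (hg ▸ graph0_sym z R) dι (fun v => ?_) ?_
  · have h1 := norm_sub_le ((D + (a : ℂ) • ι) v + W v) (W v)
    rw [add_sub_cancel_right] at h1
    rw [e4]
    linarith [(est v).1, (est v).2]
  · simp only [e4]
    exact dense_of_orth (D + (a : ℂ) • ι + W) fun g hg0 =>
      orth_pert _ W dP (fun v => (est v).1) g hg0

theorem kato (z : Fin k → ℝ) (R : Fin k → E3) : ∃ A : anti N →ₗ.[ℂ] anti N, IsSelfAdjoint A ∧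
    (A.graph : Set (anti N × anti N)) = closure (graph0 N z R) ∧
    ⊥ < infSpec (A.graph : Set (anti N × anti N)) ∧
    infSpec (A.graph : Set (anti N × anti N)) ≤ quantumEnergy N z R := by
  obtain ⟨a0, h⟩ := kato0 (N := N) z R
  obtain ⟨A, h1, h2⟩ := (h a0 le_rfl).2
  refine ⟨A, h1, h2, ?_, ?_⟩
  · rw [h2]
    refine (EReal.bot_lt_coe (-a0)).trans_le (le_iInf fun l => EReal.coe_le_coe_iff.2 ?_)
    by_contra hl
    exact (h (-l.1) (by linarith)).1 (by simpa using l.2)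
  · rw [h2]
    exact infSpec_le_energy z R (graph0_sym z R).closure subset_closure

theorem exists_isEQ (N : ℕ) (z : Fin k → ℝ) (R : Fin k → E3) :
    ∃ E : EReal, ⊥ < E ∧ IsEQ N z R E ∧ E ≤ quantumEnergy N z R := by
  obtain ⟨A, a, b, c, d⟩ := kato (N := N) z R
  exact ⟨_, c, ⟨anti N, anti_complete, fun _ => Iff.rfl, A, a, b, rfl⟩, d⟩

end TFS49
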