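import Pool.Agent.Lib.TFS49.Slice

/-! The operator is symmetric and the bottom of its spectrum lies below the form infimum. -/

open MeasureTheory
open scoped ContDiff InnerProductSpace ComplexConjugate

namespace TFS49

open Pool.Agent.Lib.MP_f7be6d_mp

variable {N k : ℕ}

theorem anti_closed : IsClosed (anti N : Set (Lp ℂ 2 (mu N))) := by
  have e : (anti N : Set (Lp ℂ 2 (mu N))) = ⋂ π : Equiv.Perm (Fin N),
      {f | Lp.compMeasurePreserving _ (perm_mp π) f = ((Equiv.Perm.sign π : ℤ) : ℂ) • f} := by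
    ext f
    simp only [Set.mem_iInter, Set.mem_ofPred_eq]
    refine forall_congr' fun π => ?_
    rw [Lp.ext_iff]
    have h1 := Lp.coeFn_compMeasurePreserving f (perm_mp π)
    have h2 := Lp.coeFn_smul ((Equiv.Perm.sign π : ℤ) : ℂ) f
    constructor
    · intro h
      filter_upwards [h, h1, h2] with y a b c
      rw [b, c]; exact a
    · intro h
      filter_upwards [h, h1, h2] with y a b c
      rw [b, c] at a; exact a
  rw [e]
  exact isClosed_iInter fun π => isClosed_eq
    (Lp.isometry_compMeasurePreserving (perm_mp π)).continuous (by fun_prop)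

instance anti_complete : CompleteSpace (anti N) := anti_closed.completeSpace_coe

theorem pair_sum_perm (π : Equiv.Perm (Fin N)) (x : Fin N → E3) :
    (∑ i, ∑ j with i < j, 1 / ‖x (π i) - x (π j)‖) = ∑ i, ∑ j with i < j, 1 / ‖x i - x j‖ := by
  have key : ∀ x : Fin N → E3, 2 * (∑ i, ∑ j with i < j, 1 / ‖x i - x j‖) =
      ∑ i, ∑ j, 1 / ‖x i - x j‖ := by
    intro x
    have h1 : (∑ i, ∑ j with i < j, 1 / ‖x i - x j‖) = ∑ i, ∑ j with j < i, 1 / ‖x i - x j‖ := by
      simp only [Finset.sum_filter]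
      rw [Finset.sum_comm]
      exact Finset.sum_congr rfl fun i _ => Finset.sum_congr rfl fun j _ => by rw [norm_sub_rev]
    rw [two_mul]
    nth_rewrite 2 [h1]
    rw [← Finset.sum_add_distrib]
    refine Finset.sum_congr rfl fun i _ => ?_
    simp only [Finset.sum_filter]
    rw [← Finset.sum_add_distrib]
    refine Finset.sum_congr rfl fun j _ => ?_
    rcases lt_trichotomy i j with h | h | h
    · simp [h, h.le]
    · simp [h]
    · simp [h, h.le]
  have h2 : ∑ i, ∑ j, 1 / ‖x (π i) - x (π j)‖ = ∑ i, ∑ j, 1 / ‖x i - x j‖ := by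
    rw [← Equiv.sum_comp π fun i => ∑ j, 1 / ‖x i - x j‖]
    exact Finset.sum_congr rfl fun i _ => Equiv.sum_comp π fun j => 1 / ‖x (π i) - x j‖
  have h3 := key (x ∘ π)
  have h4 := key x
  simp only [Function.comp] at h3
  linarith

theorem ham_anti (z : Fin k → ℝ) (R : Fin k → E3) {ψ : Cfg N → ℂ} (h : IsCore ψ)
    (π : Equiv.Perm (Fin N)) (y : Cfg N) :
    ham z R ψ (y ∘ π) = ((Equiv.Perm.sign π : ℤ) : ℂ) * ham z R ψ y := by
  have e : ∀ i, Laplacian.laplacian
      (fun t : E3 => ψ (Function.update (y ∘ π) i (t, ((y ∘ π) i).2))) ((y ∘ π) i).1 =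
      ((Equiv.Perm.sign π : ℤ) : ℂ) * Laplacian.laplacian
        (fun t : E3 => ψ (Function.update y (π i) (t, (y (π i)).2))) (y (π i)).1 := by
    intro i
    have e1 : (fun t : E3 => ψ (Function.update (y ∘ π) i (t, ((y ∘ π) i).2))) = fun t : E3 =>
        ((Equiv.Perm.sign π : ℤ) : ℂ) * ψ (Function.update y (π i) (t, (y (π i)).2)) := by
      funext t
      rw [← h.antisymm, Function.update_comp_eq_of_injective _ π.injective]
      rfl
    rw [e1]
    rcases Int.units_eq_one_or (Equiv.Perm.sign π) with h1 | h1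
    · simp [h1]
    · simp only [h1, Units.val_neg, Units.val_one, Int.cast_neg, Int.cast_one, neg_mul, one_mul]
      exact congrFun (InnerProductSpace.laplacian_neg
        (f := fun t : E3 => ψ (Function.update y (π i) (t, (y (π i)).2)))) _
  unfold ham
  simp only [e, h.antisymm]
  have e2 := pair_sum_perm π fun i => (y i).1
  simp only [Function.comp] at e2 ⊢
  rw [e2, mul_add, Finset.mul_sum, ← Equiv.sum_comp π fun i => ((Equiv.Perm.sign π : ℤ) : ℂ) *
    (-Laplacian.laplacian (fun t : E3 => ψ (Function.update y i (t, (y i).2))) (y i).1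
      - nucV z R (y i).1 * ψ y)]
  congr 1
  · exact Finset.sum_congr rfl fun i _ => by ring
  · ring

theorem memLp_ham_slice (z : Fin k → ℝ) (R : Fin k → E3) {ψ : Cfg N → ℂ} (h : IsCore ψ)
    (s : Fin N → Fin 2) : MemLp (fun x => ham z R ψ (emb s x)) 2 volume := by
  simp only [ham_slice z R h]
  exact (memLp_finsetSum _ fun i _ => memLp_finsetSum _ fun a _ =>
    (dd_smooth i a (dd_smooth i a (h.smooth s))).continuous.memLp_of_hasCompactSupport
      (dd_compact i a (dd_compact i a (h.compact s)))).neg.add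
    (memLp_pw z R (h.smooth s).continuous (h.compact s))

theorem parts (i : Fin N) (a : Fin 3) {f g : (Fin N → E3) → ℂ} (hf : ContDiff ℝ ∞ f)
    (hf' : HasCompactSupport f) (hg : ContDiff ℝ ∞ g) :
    ∫ x, conj (f x) * dd i a g x = -∫ x, conj (dd i a f x) * g x := by
  have hc : ContDiff ℝ ∞ fun x => conj (f x) := Complex.conjCLE.contDiff.comp hf
  have hc' : HasCompactSupport fun x => conj (f x) := hf'.comp_left (g := conj) (map_zero _)
  have e : ∀ x, conj (dd i a f x) = dd i a (fun x => conj (f x)) x := by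
    intro x
    have := (Complex.conjCLE.hasFDerivAt.comp x
      ((hf.differentiable (by simp)) x).hasFDerivAt).fderiv
    unfold dd
    rw [show (fun x => conj (f x)) = Complex.conjCLE ∘ f from rfl, this]
    rfl
  simp only [e]
  exact integral_mul_fderiv_eq_neg_fderiv_mul_of_integrable
    (((dd_smooth i a hc).continuous.mul hg.continuous).integrable_of_hasCompactSupport
      (dd_compact i a hc').mul_right)
    ((hc.continuous.mul (dd_smooth i a hg).continuous).integrable_of_hasCompactSupport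
      hc'.mul_right)
    ((hc.continuous.mul hg.continuous).integrable_of_hasCompactSupport hc'.mul_right)
    (fun x _ => hc.differentiable (by simp) x) fun x _ => hg.differentiable (by simp) x

theorem int_conj_mul {α : Type} [MeasurableSpace α] {μ : Measure α} {f g : α → ℂ}
    (hf : MemLp f 2 μ) (hg : MemLp g 2 μ) : Integrable (fun x => conj (f x) * g x) μ :=
  MemLp.integrable_mul hf.star hg

/-- the sesquilinear form -/
noncomputable def sq (z : Fin k → ℝ) (R : Fin k → E3) (ψ φ : Cfg N → ℂ) : ℂ :=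
  ∑ s, ∫ x, (∑ i, ∑ a, conj (dd i a (fun x => ψ (emb s x)) x) * dd i a (fun x => φ (emb s x)) x
    + conj (ψ (emb s x)) * ((pw z R x : ℂ) * φ (emb s x)))

theorem sq_conj (z : Fin k → ℝ) (R : Fin k → E3) (ψ φ : Cfg N → ℂ) :
    conj (sq z R ψ φ) = sq z R φ ψ := by
  unfold sq
  rw [map_sum]
  refine Finset.sum_congr rfl fun s _ => ?_
  rw [← integral_conj]
  congr 1
  funext x
  simp only [map_add, map_sum, map_mul, Complex.conj_conj, Complex.conj_ofReal]
  congr 1
  · exact Finset.sum_congr rfl fun i _ => Finset.sum_congr rfl fun a _ => mul_comm _ _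
  · ring

theorem core_memLp {ψ : Cfg N → ℂ} (h : IsCore ψ) (s : Fin N → Fin 2) :
    MemLp (fun x => ψ (emb s x)) 2 volume :=
  (h.smooth s).continuous.memLp_of_hasCompactSupport (h.compact s)

theorem int_ham (z : Fin k → ℝ) (R : Fin k → E3) {ψ φ : Cfg N → ℂ} (h : IsCore ψ)
    (h' : IsCore φ) : ∫ y, conj (ψ y) * ham z R φ y ∂mu N = sq z R ψ φ := by
  rw [integral_slices fun s => int_conj_mul (core_memLp h s) (memLp_ham_slice z R h' s)]
  refine Finset.sum_congr rfl fun s _ => ?_
  have m1 : ∀ {χ : Cfg N → ℂ}, IsCore χ → ∀ i a, MemLp (dd i a fun x => χ (emb s x)) 2 volume :=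
    fun hχ i a => (dd_smooth i a (hχ.smooth s)).continuous.memLp_of_hasCompactSupport
      (dd_compact i a (hχ.compact s))
  have m2 : ∀ i a, MemLp (dd i a (dd i a fun x => φ (emb s x))) 2 volume := fun i a =>
    (dd_smooth i a (dd_smooth i a (h'.smooth s))).continuous.memLp_of_hasCompactSupport
      (dd_compact i a (dd_compact i a (h'.compact s)))
  have i3 := int_conj_mul (core_memLp h s) 
    (memLp_pw z R (f := fun x => φ (emb s x)) (h'.smooth s).continuous (h'.compact s))
  have i1 := fun i a => int_conj_mul (m1 h i a) (m1 h' i a)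
  have i2 := fun i a => int_conj_mul (core_memLp h s) (m2 i a)
  simp only [ham_slice z R h', mul_add, mul_neg, Finset.mul_sum]
  rw [integral_add (integrable_finsetSum _ fun i _ => integrable_finsetSum _ fun a _ =>
      i2 i a).fun_neg i3,
    integral_add (integrable_finsetSum _ fun i _ => integrable_finsetSum _ fun a _ => i1 i a) i3,
    integral_neg, integral_finsetSum _ fun i _ => integrable_finsetSum _ fun a _ => i2 i a,
    integral_finsetSum _ fun i _ => integrable_finsetSum _ fun a _ => i1 i a,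
    ← Finset.sum_neg_distrib]
  congr 1
  refine Finset.sum_congr rfl fun i _ => ?_
  rw [integral_finsetSum _ fun a _ => i2 i a, integral_finsetSum _ fun a _ => i1 i a,
    ← Finset.sum_neg_distrib]
  refine Finset.sum_congr rfl fun a _ => ?_
  rw [parts i a (f := fun x => ψ (emb s x)) (h.smooth s) (h.compact s)
    (dd_smooth i a (f := fun x => φ (emb s x)) (h'.smooth s)), neg_neg]

theorem inner_eq (f g : anti N) {ψ φ : Cfg N → ℂ} (hf : (f.1 : Cfg N → ℂ) =ᵐ[mu N] ψ)
    (hg : (g.1 : Cfg N → ℂ) =ᵐ[mu N] φ) : ⟪f, g⟫_ℂ = ∫ y, conj (ψ y) * φ y ∂mu N := by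
  rw [Submodule.coe_inner, L2.inner_def]
  refine integral_congr_ae ?_
  filter_upwards [hf, hg] with y a b
  rw [a, b, RCLike.inner_apply, mul_comm]

theorem graph0_sym (z : Fin k → ℝ) (R : Fin k → E3) : Sym (graph0 N z R) := by
  rintro p ⟨ψ, h, h1, h2⟩ q ⟨φ, h', h3, h4⟩
  have e : ⟪p.2, q.1⟫_ℂ = conj ⟪q.1, p.2⟫_ℂ := (inner_conj_symm (𝕜 := ℂ) p.2 q.1).symm
  rw [e, inner_eq _ _ h3 h2, inner_eq _ _ h1 h4, int_ham z R h' h, int_ham z R h h', sq_conj]

theorem toLp_mem {F : Cfg N → ℂ} (hF : MemLp F 2 (mu N)) (h : ∀ (π : Equiv.Perm (Fin N)) y,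
    F (y ∘ π) = ((Equiv.Perm.sign π : ℤ) : ℂ) * F y) : hF.toLp F ∈ anti N := by
  intro π
  filter_upwards [hF.coeFn_toLp, (perm_mp π).quasiMeasurePreserving.ae hF.coeFn_toLp] with y a b
  rw [a, b, h]

theorem exists_mem (z : Fin k → ℝ) (R : Fin k → E3) {ψ : Cfg N → ℂ} (h : IsCore ψ) :
    ∃ p ∈ graph0 N z R, (p.1.1 : Cfg N → ℂ) =ᵐ[mu N] ψ ∧
      (p.2.1 : Cfg N → ℂ) =ᵐ[mu N] ham z R ψ := by
  have m1 := memLp_of_slices (core_memLp h)
  have m2 := memLp_of_slices (memLp_ham_slice z R h)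
  exact ⟨(⟨m1.toLp _, toLp_mem m1 h.antisymm⟩, ⟨m2.toLp _, toLp_mem m2 (ham_anti z R h)⟩),
    ⟨ψ, h, m1.coeFn_toLp, m2.coeFn_toLp⟩, m1.coeFn_toLp, m2.coeFn_toLp⟩

theorem sq_self (z : Fin k → ℝ) (R : Fin k → E3) (ψ : Cfg N → ℂ) :
    sq z R ψ ψ = (quantumForm z R fun x s => ψ (emb s x) : ℝ) := by
  unfold sq quantumForm
  push_cast
  refine Finset.sum_congr rfl fun s _ => ?_
  rw [← integral_complex_ofReal]
  congr 1
  funext x
  have e : ∀ w : ℂ, conj w * w = ((‖w‖ ^ 2 : ℝ) : ℂ) := fun w => by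
    rw [Complex.conj_mul']; push_cast; rfl
  rw [mul_left_comm, e]
  simp only [e, pw, dd]
  push_cast
  rfl

theorem infSpec_le_energy (z : Fin k → ℝ) (R : Fin k → E3) {G : Set (anti N × anti N)}
    (hG : Sym G) (h0 : graph0 N z R ⊆ G) : infSpec G ≤ quantumEnergy N z R := by
  refine le_iInf fun ψ => ?_
  obtain ⟨ψ, hψ⟩ := ψ
  have hc : IsCore fun y : Cfg N => ψ (fun i => (y i).1) fun i => (y i).2 :=
    ⟨hψ.smooth, hψ.compact, fun π y => hψ.antisymm π (fun i => (y i).1) fun i => (y i).2⟩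
  obtain ⟨p, hp, h1, h2⟩ := exists_mem z R hc
  have hn : ‖p.1‖ = 1 := by
    have h3 := inner_eq _ _ h1 h1
    have e : ⟪p.1, p.1⟫_ℂ = (‖p.1‖ : ℂ) ^ 2 := inner_self_eq_norm_sq_to_K (𝕜 := ℂ) p.1
    rw [e, integral_slices fun s => int_conj_mul (core_memLp hc s) (core_memLp hc s)] at h3
    have h4 : ((‖p.1‖ ^ 2 : ℝ) : ℂ) = ((∑ s, ∫ x, ‖ψ x s‖ ^ 2 : ℝ) : ℂ) := by
      push_cast
      refine h3.trans (Finset.sum_congr rfl fun s _ => ?_)
      rw [← integral_complex_ofReal]
      congr 1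
      funext x
      rw [Complex.conj_mul']; push_cast; rfl
    rw [hψ.normalised] at h4
    have h5 : ‖p.1‖ ^ 2 = 1 := by exact_mod_cast h4
    exact (pow_eq_one_iff_of_nonneg (norm_nonneg _) two_ne_zero).1 h5
  have h6 := infSpec_le hG p (h0 hp) hn
  rw [inner_eq _ _ h1 h2, int_ham z R hc hc, sq_self, Complex.ofReal_re] at h6
  exact h6

end TFS49
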