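import Pool.Agent.Lib.TFS49.Abs
import Pool.Agent.Lib.TFS49.Anti
import Pool.Agent.Lib.MP_f7be6d_mp.TFLower
import Pool.Agent.Lib.MP_f7be6d_mp.Unit.Split

/-! Spin slices, square integrability of the Coulomb terms, and the Laplacian in one particle. -/

open MeasureTheory
open scoped ContDiff

namespace TFS49

open Pool.Agent.Lib.MP_f7be6d_mp

variable {N : ℕ}

/-- positions with given spins -/
def emb (s : Fin N → Fin 2) (x : Fin N → E3) : Cfg N := fun i => (x i, s i)

theorem emb_me (s : Fin N → Fin 2) : MeasurableEmbedding (emb s) :=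
  (MeasurableEquiv.arrowProdEquivProdArrow E3 (Fin 2) (Fin N)).symm.measurableEmbedding.comp
    (measurableEmbedding_prod_mk_right s)

theorem mu_eq : mu N = ∑ s : Fin N → Fin 2, (volume : Measure (Fin N → E3)).map (emb s) := by
  unfold mu
  refine Measure.pi_eq fun t ht => ?_
  rw [Measure.finsetSum_apply]
  have h1 : ∀ s : Fin N → Fin 2, (volume : Measure (Fin N → E3)).map (emb s) (Set.univ.pi t) =
      ∏ i, volume ((fun a : E3 => (a, s i)) ⁻¹' t i) := by
    intro s
    rw [(emb_me s).map_apply, ← volume_pi_pi]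
    rfl
  simp only [h1]
  rw [← Fintype.piFinset_univ,
    ← Finset.prod_univ_sum (fun _ => Finset.univ)
      (fun (i : Fin N) (b : Fin 2) => volume ((fun a : E3 => (a, b)) ⁻¹' t i))]
  refine Finset.prod_congr rfl fun i _ => ?_
  rw [Measure.prod_apply_symm (ht i), lintegral_count, tsum_fintype]

theorem memLp_of_slices {F : Cfg N → ℂ} (h : ∀ s, MemLp (fun x => F (emb s x)) 2 volume) :
    MemLp F 2 (mu N) := by
  have h1 : AEStronglyMeasurable F (mu N) := by
    rw [mu_eq, ← Measure.sum_fintype, aestronglyMeasurable_sum_measure_iff]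
    intro s
    exact (emb_me s).aestronglyMeasurable_map_iff.2 (h s).1
  rw [memLp_two_iff_integrable_sq_norm h1, mu_eq, integrable_finsetSum_measure]
  intro s _
  exact (emb_me s).integrable_map_iff.2 ((memLp_two_iff_integrable_sq_norm (h s).1).1 (h s))

theorem integral_slices {F : Cfg N → ℂ} (h : ∀ s, Integrable fun x => F (emb s x)) :
    ∫ y, F y ∂mu N = ∑ s, ∫ x, F (emb s x) := by
  rw [mu_eq, integral_finsetSum_measure fun s _ => (emb_me s).integrable_map_iff.2 (h s)]
  exact Finset.sum_congr rfl fun s _ => (emb_me s).integral_map _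

theorem dom {f : (Fin N → E3) → ℂ} (hf : Continuous f) (hs : HasCompactSupport f) :
    ∃ (M : ℝ) (φ : E3 → ℝ), 0 ≤ M ∧ Integrable φ ∧ (∀ t, 0 ≤ φ t) ∧ (∀ t, φ t ≤ 1) ∧
      ∀ x, ‖f x‖ ^ 2 ≤ M * ∏ l, φ (x l) := by
  obtain ⟨M, hM⟩ := hf.bounded_above_of_compact_support hs
  obtain ⟨r, hr⟩ := hs.isCompact.isBounded.subset_closedBall 0
  let b : ContDiffBump (0 : E3) := ⟨|r| + 1, |r| + 2, by positivity, by linarith⟩
  refine ⟨M ^ 2, b, by positivity, b.integrable, fun _ => b.nonneg, fun _ => b.le_one, fun x => ?_⟩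
  by_cases hx : x ∈ tsupport f
  · have h1 : ∀ l, b (x l) = 1 := fun l => b.one_of_mem_closedBall (by
      have h2 := mem_closedBall_zero_iff.1 (hr hx)
      rw [mem_closedBall_zero_iff]
      have h3 := norm_le_pi_norm x l
      have h4 := le_abs_self r
      change ‖x l‖ ≤ |r| + 1
      linarith)
    simpa [h1] using pow_le_pow_left₀ (norm_nonneg _) (hM x) 2
  · rw [image_eq_zero_of_notMem_tsupport hx, norm_zero, zero_pow two_ne_zero]
    exact mul_nonneg (by positivity) (Finset.prod_nonneg fun _ _ => b.nonneg)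

theorem inv_sq_le (y : E3) : (1 / ‖y‖) ^ 2 ≤ hsing 1 y + 1 := by
  have h0 := hsing_nonneg 1 y
  by_cases hy : ‖y‖ < 1
  · rcases (norm_nonneg y).eq_or_lt with h | h
    · rw [← h]; simp; linarith
    · have e : hsing 1 y = ‖y‖ ^ (-(5 / 2 : ℝ)) := by
        unfold hsing
        rw [Set.indicator_of_mem (mem_ball_zero_iff.2 hy)]
      have e2 : (1 / ‖y‖) ^ 2 = ‖y‖ ^ (-(2 : ℝ)) := by
        rw [Real.rpow_neg h.le, one_div, inv_pow, Real.rpow_two]
      have := Real.rpow_le_rpow_of_exponent_ge h hy.le (show -(5 / 2 : ℝ) ≤ -2 by norm_num)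
      rw [e, e2]; linarith
  · have h1 : 1 / ‖y‖ ≤ 1 := div_le_self zero_le_one (not_lt.1 hy)
    have h2 : (1 / ‖y‖) ^ 2 ≤ 1 := pow_le_one₀ (by positivity) h1
    linarith

theorem memLp_sing {f : (Fin N → E3) → ℂ} (hf : Continuous f) (hs : HasCompactSupport f)
    (i : Fin N) (w : (Fin N → E3) → E3) (hw : Continuous w)
    (hi : ∀ φ : E3 → ℝ, Integrable φ →
      Integrable fun x : Fin N → E3 => hsing 1 (w x) * ∏ l ∈ Finset.univ.erase i, φ (x l)) :
    MemLp (fun x => ((1 / ‖w x‖ : ℝ) : ℂ) * f x) 2 volume := by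
  obtain ⟨M, φ, hM, h1, h2, h3, h4⟩ := dom hf hs
  have hm : AEStronglyMeasurable (fun x => ((1 / ‖w x‖ : ℝ) : ℂ) * f x) volume :=
    Measurable.aestronglyMeasurable (by fun_prop)
  rw [memLp_two_iff_integrable_sq_norm hm]
  have h5 : Integrable fun x : Fin N → E3 => ∏ l, φ (x l) :=
    Integrable.fintype_prod (f := fun _ : Fin N => φ) fun _ => h1
  refine (((hi φ h1).add h5).const_mul M).mono' (hm.norm.pow 2)
    (Filter.Eventually.of_forall fun x => ?_)
  rw [Real.norm_of_nonneg (by positivity), norm_mul, mul_pow, Complex.norm_real,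
    Real.norm_of_nonneg (by positivity)]
  have h6 : 0 ≤ ∏ l ∈ Finset.univ.erase i, φ (x l) := Finset.prod_nonneg fun _ _ => h2 _
  have h7 : ∏ l, φ (x l) ≤ ∏ l ∈ Finset.univ.erase i, φ (x l) := by
    rw [← Finset.mul_prod_erase _ _ (Finset.mem_univ i)]
    exact mul_le_of_le_one_left h6 (h3 _)
  have h8 := hsing_nonneg 1 (w x)
  calc (1 / ‖w x‖) ^ 2 * ‖f x‖ ^ 2 ≤ (hsing 1 (w x) + 1) * (M * ∏ l, φ (x l)) :=
        mul_le_mul (inv_sq_le _) (h4 x) (by positivity) (by positivity)
    _ = M * (hsing 1 (w x) * ∏ l, φ (x l) + ∏ l, φ (x l)) := by ring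
    _ ≤ _ := by
        simp only [Pi.add_apply]
        gcongr

theorem memLp_nuc {f : (Fin N → E3) → ℂ} (hf : Continuous f) (hs : HasCompactSupport f)
    (i : Fin N) (c : E3) : MemLp (fun x => ((1 / ‖x i - c‖ : ℝ) : ℂ) * f x) 2 volume := by
  refine memLp_sing hf hs i (fun x => x i - c) (by fun_prop) fun φ hφ => ?_
  have h5 := Integrable.fintype_prod (μ := fun _ => volume)
    (f := fun l => Function.update (fun _ => φ) i (fun t => hsing 1 (t - c)) l) (fun l => by
      by_cases hl : l = i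
      · subst hl
        rw [Function.update_self]
        exact (integrable_hsing 1).comp_sub_right c
      · rw [Function.update_of_ne hl]
        exact hφ)
  refine h5.congr (Filter.Eventually.of_forall fun x => ?_)
  simp only
  rw [← Finset.mul_prod_erase _ _ (Finset.mem_univ i), Function.update_self,
    Finset.prod_congr rfl fun l hl => by rw [Function.update_of_ne (Finset.ne_of_mem_erase hl)]]

theorem memLp_pair {f : (Fin N → E3) → ℂ} (hf : Continuous f) (hs : HasCompactSupport f)
    (i j : Fin N) (hij : i ≠ j) :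
    MemLp (fun x => ((1 / ‖x i - x j‖ : ℝ) : ℂ) * f x) 2 volume := by
  refine memLp_sing hf hs i (fun x => x i - x j) (by fun_prop) fun φ hφ => ?_
  obtain ⟨e, he, hx⟩ := Unit.pair_split i j hij
  have h1 : Integrable (fun p : E3 × E3 => φ p.2 * hsing 1 (p.1 - p.2)) (volume.prod volume) :=
    hφ.convolution_integrand (ContinuousLinearMap.mul ℝ ℝ) (integrable_hsing 1)
  have h2 := (he.integrable_comp_emb e.measurableEmbedding).2 (h1.mul_prod
    (Integrable.fintype_prod (f := fun _ : {l // ¬(l = i ∨ l = j)} => φ) fun _ => hφ))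
  refine h2.congr (Filter.Eventually.of_forall fun x => ?_)
  simp only [Function.comp, hx]
  rw [← Finset.mul_prod_erase (Finset.univ.erase i) _ (a := j) (by simp [hij.symm]),
    Finset.prod_subtype (p := fun l => ¬(l = i ∨ l = j)) ((Finset.univ.erase i).erase j)
      (by intro l; simp; tauto) fun l => φ (x l)]
  ring

/-- the potential -/
noncomputable def pw {k : ℕ} (z : Fin k → ℝ) (R : Fin k → E3) (x : Fin N → E3) : ℝ :=
  -(∑ i, nucV z R (x i)) + (∑ i, ∑ j with i < j, 1 / ‖x i - x j‖) + nucU z R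

theorem memLp_pw {k : ℕ} (z : Fin k → ℝ) (R : Fin k → E3) {f : (Fin N → E3) → ℂ}
    (hf : Continuous f) (hs : HasCompactSupport f) :
    MemLp (fun x => (pw z R x : ℂ) * f x) 2 volume := by
  have e : (fun x => (pw z R x : ℂ) * f x) = fun x =>
      -(∑ i, ∑ j, (z j : ℂ) * (((1 / ‖x i - R j‖ : ℝ) : ℂ) * f x)) +
      (∑ i, ∑ j with i < j, ((1 / ‖x i - x j‖ : ℝ) : ℂ) * f x) + (nucU z R : ℂ) * f x := by
    funext x
    simp only [pw, nucV]
    push_cast
    simp only [add_mul, neg_mul, Finset.sum_mul]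
    congr 3
    refine Finset.sum_congr rfl fun i _ => Finset.sum_congr rfl fun j _ => by ring
  rw [e]
  exact ((memLp_finsetSum _ fun i _ => memLp_finsetSum _ fun j _ =>
    (memLp_nuc hf hs i (R j)).const_mul _).neg.add (memLp_finsetSum _ fun i _ =>
      memLp_finsetSum _ fun j hj => memLp_pair hf hs i j (Finset.mem_filter.1 hj).2.ne)).add
    ((hf.memLp_of_hasCompactSupport hs).const_mul _)

/-- coordinate derivative -/
noncomputable def dd (i : Fin N) (a : Fin 3) (f : (Fin N → E3) → ℂ) (x : Fin N → E3) : ℂ :=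
  fderiv ℝ f x (Pi.single i (EuclideanSpace.single a (1 : ℝ)))

theorem dd_smooth (i : Fin N) (a : Fin 3) {f : (Fin N → E3) → ℂ} (hf : ContDiff ℝ ∞ f) :
    ContDiff ℝ ∞ (dd i a f) :=
  (hf.fderiv_right (m := ∞) le_rfl).clm_apply contDiff_const

theorem dd_compact (i : Fin N) (a : Fin 3) {f : (Fin N → E3) → ℂ} (hf : HasCompactSupport f) :
    HasCompactSupport (dd i a f) := hf.fderiv_apply ℝ _

theorem fderiv_upd {f : (Fin N → E3) → ℂ} (hf : ContDiff ℝ ∞ f) (x : Fin N → E3) (i : Fin N)
    (t w : E3) : fderiv ℝ (fun t => f (Function.update x i t)) t w =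
      fderiv ℝ f (Function.update x i t) (Pi.single i w) := by
  have h := ((hf.differentiable (by simp)) (Function.update x i t)).hasFDerivAt.comp t
    (hasFDerivAt_update (𝕜 := ℝ) x t)
  have e : (fun t => f (Function.update x i t)) = f ∘ Function.update x i := rfl
  rw [e, h.fderiv, ContinuousLinearMap.comp_apply]
  congr 1
  funext j
  by_cases hj : j = i
  · subst hj; simp
  · simp [hj]

theorem lap_eq {f : (Fin N → E3) → ℂ} (hf : ContDiff ℝ ∞ f) (x : Fin N → E3) (i : Fin N) :
    Laplacian.laplacian (fun t : E3 => f (Function.update x i t)) (x i) =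
      ∑ a, dd i a (dd i a f) x := by
  rw [InnerProductSpace.laplacian_eq_iteratedFDeriv_orthonormalBasis _
    (EuclideanSpace.basisFun (Fin 3) ℝ)]
  refine Finset.sum_congr rfl fun a _ => ?_
  have hg : ContDiff ℝ ∞ fun t : E3 => f (Function.update x i t) :=
    hf.comp (contDiff_update _ x i)
  have hd : DifferentiableAt ℝ (fderiv ℝ fun t : E3 => f (Function.update x i t)) (x i) :=
    ((hg.fderiv_right (m := ∞) le_rfl).differentiable (by simp)) _
  rw [iteratedFDeriv_two_apply]
  simp only [Matrix.cons_val_zero, Matrix.cons_val_one, EuclideanSpace.basisFun_apply]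
  have e1 := fderiv_clm_apply hd (differentiableAt_const (EuclideanSpace.single a (1 : ℝ)))
  have e2 : (fun t => fderiv ℝ (fun t : E3 => f (Function.update x i t)) t
      (EuclideanSpace.single a (1 : ℝ))) = fun t => dd i a f (Function.update x i t) :=
    funext fun t => fderiv_upd hf x i t _
  have e3 := fderiv_upd (dd_smooth i a hf) x i (x i) (EuclideanSpace.single a (1 : ℝ))
  rw [← e2, e1, Function.update_eq_self] at e3
  simpa [dd] using e3

theorem ham_slice {k : ℕ} (z : Fin k → ℝ) (R : Fin k → E3) {ψ : Cfg N → ℂ} (h : IsCore ψ)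
    (s : Fin N → Fin 2) (x : Fin N → E3) : ham z R ψ (emb s x) =
      -(∑ i, ∑ a, dd i a (dd i a fun x => ψ (emb s x)) x) + (pw z R x : ℂ) * ψ (emb s x) := by
  have e : ∀ i, (fun t : E3 => ψ (Function.update (emb s x) i (t, (emb s x i).2))) =
      fun t => (fun x => ψ (emb s x)) (Function.update x i t) := by
    intro i
    funext t
    congr 1
    funext j
    by_cases hj : j = i
    · subst hj; simp [emb]
    · simp [emb, hj]
  have e2 : ∀ i, (emb s x i).1 = x i := fun _ => rfl
  unfold ham pw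
  simp only [e, e2]
  simp only [lap_eq (f := fun x => ψ (emb s x)) (h.smooth s)]
  push_cast
  simp only [Finset.sum_sub_distrib, Finset.sum_neg_distrib, ← Finset.sum_mul]
  ring

end TFS49
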